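import Pool.Agent.Lib.MP_0f714a_pr.Iz.Defs

/-!
Elementary inequalities for p-functions, and the exponentials.
-/

open MeasureTheory Filter Topology Set
open scoped NNReal

namespace Pool.Agent.Lib.MP_0f714a_pr

universe u

lemma basic_events {p : ℝ≥0 → ℝ} (h : IsPFunction.{u} p) :
    ∃ (Ω : Type u) (_ : MeasurableSpace Ω) (P : Measure Ω) (_ : IsProbabilityMeasure P)
      (E : ℝ≥0 → Set Ω), (∀ t, MeasurableSet (E t)) ∧ (∀ s, P.real (E s) = p s) ∧
      (∀ s t, P.real (E s ∩ E (s + t)) = p s * p t) ∧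
      ∀ r s t, P.real (E r ∩ E (r + s) ∩ E (r + s + t)) = p r * p s * p t := by
  obtain ⟨h0, h1, Ω, m, P, hP, E, hE, hreg⟩ := h
  have e1 : ∀ s, P.real (E s) = p s := by
    intro s
    have := hreg 0 (fun _ => s) monotone_const
    simpa [Set.iInter_const] using this
  have e2 : ∀ s t, P.real (E s ∩ E (s + t)) = p s * p t := by
    intro s t
    have hm : Monotone (![s, s + t] : Fin 2 → ℝ≥0) := by
      intro i j hij
      fin_cases i <;> fin_cases j <;> simp_all
    have := hreg 1 ![s, s + t] hm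
    have e3 : (⋂ i : Fin 2, E (![s, s + t] i)) = E s ∩ E (s + t) := by
      ext ω; simp [Fin.forall_fin_two]
    rw [e3] at this
    rw [this]
    simp [Set.iInter_const, e1]
  refine ⟨Ω, m, P, hP, E, hE, e1, e2, fun r s t => ?_⟩
  have hm : Monotone (![r, r + s, r + s + t] : Fin 3 → ℝ≥0) := by
    refine Fin.monotone_iff_le_succ.2 fun i => ?_
    fin_cases i <;> simp
  have h3 := hreg 2 ![r, r + s, r + s + t] hm
  have e3 : (⋂ i : Fin 3, E (![r, r + s, r + s + t] i)) = E r ∩ E (r + s) ∩ E (r + s + t) := by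
    ext ω; simp [Fin.forall_fin_succ, and_assoc]
  have e4 : (⋂ i : Fin 2, E ((![r, r + s, r + s + t] : Fin 3 → ℝ≥0) i.succ -
      (![r, r + s, r + s + t] : Fin 3 → ℝ≥0) 0)) = E s ∩ E (s + t) := by
    ext ω; simp [Fin.forall_fin_two, add_assoc]
  rw [e3, e4, e2] at h3
  rw [h3]
  simp [mul_assoc]

theorem IsPFunction.supermul {p : ℝ≥0 → ℝ} (h : IsPFunction.{u} p) (s t : ℝ≥0) :
    p s * p t ≤ p (s + t) := by
  obtain ⟨Ω, m, P, hP, E, hE, e1, e2, -⟩ := basic_events h
  rw [← e2, ← e1]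
  exact measureReal_mono inter_subset_right

theorem IsPFunction.upper {p : ℝ≥0 → ℝ} (h : IsPFunction.{u} p) (s t : ℝ≥0) :
    p (s + t) - p s * p t ≤ 1 - p s := by
  obtain ⟨Ω, m, P, hP, E, hE, e1, e2, -⟩ := basic_events h
  have e4 := measureReal_union_add_inter (μ := P) (s := E s) (hE (s + t))
  have e5 : P.real (E s ∪ E (s + t)) ≤ 1 := measureReal_le_one
  rw [e1, e1, e2] at e4
  linarith

/-- times `r ≤ r + s ≤ r + s + t` -/
theorem IsPFunction.three_point {p : ℝ≥0 → ℝ} (h : IsPFunction.{u} p) (r s t : ℝ≥0) :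
    0 ≤ p (r + s + t) - p r * p (s + t) - p (r + s) * p t + p r * p s * p t := by
  obtain ⟨Ω, m, P, hP, E, hE, e1, e2, e3⟩ := basic_events h
  have e4 := measureReal_union_add_inter (μ := P) (s := E r ∩ E (r + s + t))
    ((hE (r + s)).inter (hE (r + s + t)))
  have e5 : P.real (E r ∩ E (r + s + t) ∪ E (r + s) ∩ E (r + s + t)) ≤ P.real (E (r + s + t)) :=
    measureReal_mono (union_subset inter_subset_right inter_subset_right)
  have e6 : E r ∩ E (r + s + t) ∩ (E (r + s) ∩ E (r + s + t)) =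
      E r ∩ E (r + s) ∩ E (r + s + t) := by
    ext ω; simp only [mem_inter_iff]; tauto
  have e7 := e2 r (s + t)
  rw [← add_assoc] at e7
  rw [e6, e3, e7, e2] at e4
  rw [e1] at e5
  linarith

lemma basic_pow_le {p : ℝ≥0 → ℝ} (h : IsPFunction.{u} p) (t : ℝ≥0) (n : ℕ) :
    p t ^ n ≤ p (n * t) := by
  induction n with
  | zero => simp [h.1]
  | succ n ih =>
    have h1 := h.supermul (n * t) t
    have h2 := mul_le_mul_of_nonneg_right ih (h.2.1 t).1
    rw [pow_succ, Nat.cast_succ, add_mul, one_mul]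
    linarith

theorem IsStandard.pos {p : ℝ≥0 → ℝ} (h : IsStandard.{u} p) (t : ℝ≥0) : 0 < p t := by
  have h1 : Tendsto (fun n : ℕ => t / (n : ℝ≥0)) atTop (𝓝 0) :=
    tendsto_const_div_atTop_nhds_zero_nat t
  have h2 := (h.2.comp h1).eventually (lt_mem_nhds (show (0 : ℝ) < 1 by norm_num))
  obtain ⟨n, hn, hn1⟩ := (h2.and (eventually_ge_atTop 1)).exists
  have h3 := basic_pow_le h.1 (t / n) n
  have hn0 : (n : ℝ≥0) ≠ 0 := by exact_mod_cast (by omega : n ≠ 0)
  rw [mul_div_cancel₀ _ hn0] at h3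
  exact (pow_pos hn n).trans_le h3

lemma basic_abs {p : ℝ≥0 → ℝ} (h : IsPFunction.{u} p) (s t : ℝ≥0) :
    |p (s + t) - p t| ≤ 1 - p s := by
  have h1 := h.supermul s t
  have h2 := h.upper s t
  have h3 := h.2.1 s
  have h4 := h.2.1 t
  rw [abs_le]
  constructor <;> nlinarith

theorem IsStandard.cont {p : ℝ≥0 → ℝ} (h : IsStandard.{u} p) : Continuous p := by
  refine continuous_iff_continuousAt.2 fun t => ?_
  have h1 : Tendsto (fun s : ℝ≥0 => nndist s t) (𝓝 t) (𝓝 0) := by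
    have : Continuous fun s : ℝ≥0 => nndist s t := by fun_prop
    simpa using this.tendsto t
  have h2 : Tendsto (fun s : ℝ≥0 => 1 - p (nndist s t)) (𝓝 t) (𝓝 0) := by
    simpa using (h.2.comp h1).const_sub 1
  refine tendsto_iff_dist_tendsto_zero.2 (squeeze_zero (fun _ => dist_nonneg) (fun s => ?_) h2)
  rw [Real.dist_eq, NNReal.nndist_eq]
  rcases le_total s t with hst | hst
  · have h3 := basic_abs h.1 (t - s) s
    rw [tsub_add_cancel_of_le hst, abs_sub_comm] at h3
    rw [tsub_eq_zero_of_le hst, max_eq_right zero_le]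
    exact h3
  · have h3 := basic_abs h.1 (s - t) t
    rw [tsub_add_cancel_of_le hst] at h3
    rw [tsub_eq_zero_of_le hst, max_eq_left zero_le]
    exact h3

/-- every factor of an exponential is infinitely divisible -/
theorem infDiv_of_exp {p q : ℝ≥0 → ℝ} {lam : ℝ} (hp : ∀ t : ℝ≥0, p t = Real.exp (-(lam * t)))
    (hq : IsFactor.{u} q p) : IsInfDiv.{u} q := by
  obtain ⟨hq, r, hr, hqr⟩ := hq
  have hmul : ∀ s t, q (s + t) = q s * q t := by
    intro s t
    have h1 := hq.1.supermul s t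
    have h2 := hr.1.supermul s t
    have h3 : q (s + t) * r (s + t) = q s * r s * (q t * r t) := by
      rw [← hqr, ← hqr, ← hqr, hp, hp, hp, ← Real.exp_add]
      congr 1
      push_cast; ring
    refine le_antisymm ?_ h1
    have h4 : 0 < r s * r t := mul_pos (hr.pos s) (hr.pos t)
    have h5 := mul_le_mul_of_nonneg_left h2 (hq.pos (s + t)).le
    refine le_of_mul_le_mul_right ?_ h4
    nlinarith
  have hpow : ∀ (t : ℝ≥0) (n : ℕ), q t ^ n = q (n * t) := by
    intro t n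
    induction n with
    | zero => simp [hq.1.1]
    | succ n ih => rw [pow_succ, Nat.cast_succ, add_mul, one_mul, hmul, ih]
  intro n hn
  have hn0 : (n : ℝ≥0) ≠ 0 := by exact_mod_cast (by omega : n ≠ 0)
  refine ⟨fun t => q ((n : ℝ≥0)⁻¹ * t), ⟨hq.1.scale _, ?_⟩, fun t => ?_⟩
  · have h1 : Tendsto (fun t : ℝ≥0 => (n : ℝ≥0)⁻¹ * t) (𝓝 0) (𝓝 0) := by
      have : Continuous fun t : ℝ≥0 => (n : ℝ≥0)⁻¹ * t := by fun_prop
      simpa using this.tendsto 0
    exact hq.2.comp h1
  · rw [hpow, ← mul_assoc, mul_inv_cancel₀ hn0, one_mul]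

end Pool.Agent.Lib.MP_0f714a_pr
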