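import Pool.Agent.Lib.MP_0f714a_pr.Iz.Defs

/-!
Convergence of the discrete sequences.
-/

open MeasureTheory Filter Topology Set
open scoped NNReal

namespace Pool.Agent.Lib.MP_0f714a_pr

universe u

lemma om_cont {φ : ℝ → ℝ} {τ : ℝ} (α : ℝ) (hcont : ContinuousOn φ (Ici 0)) (hτ : 0 ≤ τ) :
    Continuous (om φ τ α) := by
  have h1 : Continuous fun t : ℝ => φ (τ + max t 0) :=
    hcont.comp_continuous (by fun_prop) fun t => mem_Ici.2 (add_nonneg hτ (le_max_right _ _))
  exact (h1.sub continuous_const).sub (by fun_prop)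

lemma conv_sub {j k : ℕ → ℕ} {t r : ℝ}
    (hj : Tendsto (fun N : ℕ => (j N : ℝ) / N) atTop (𝓝 t))
    (hk : Tendsto (fun N : ℕ => (k N : ℝ) / N) atTop (𝓝 r)) :
    Tendsto (fun N : ℕ => ((j N - k N : ℕ) : ℝ) / N) atTop (𝓝 (max (t - r) 0)) := by
  refine ((hj.sub hk).max tendsto_const_nhds).congr fun N => ?_
  have hN : (0 : ℝ) ≤ N := Nat.cast_nonneg _
  rw [← sub_div]
  rcases le_total (k N) (j N) with h | h
  · rw [Nat.cast_sub h, max_eq_left]
    exact div_nonneg (sub_nonneg.2 (by exact_mod_cast h)) hN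
  · rw [Nat.sub_eq_zero_of_le h, max_eq_right]
    · simp
    · exact div_nonpos_of_nonpos_of_nonneg (sub_nonpos.2 (by exact_mod_cast h)) hN

lemma conv_pow {y : ℕ → ℝ} {k r : ℝ} (hy : Tendsto (fun N : ℕ => (N : ℝ) * (1 - y N)) atTop (𝓝 k))
    {j : ℕ → ℕ} (hj : Tendsto (fun N : ℕ => (j N : ℝ) / N) atTop (𝓝 r)) :
    Tendsto (fun N : ℕ => y N ^ j N) atTop (𝓝 (Real.exp (-(k * r)))) := by
  have h0 : Tendsto (fun N : ℕ => (N : ℝ) * (y N - 1)) atTop (𝓝 (-k)) :=
    hy.neg.congr fun N => by ring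
  have h1 : Tendsto (fun N : ℕ => y N - 1) atTop (𝓝 0) := by
    have h2 := h0.mul (tendsto_inv_atTop_nhds_zero_nat (𝕜 := ℝ))
    rw [mul_zero] at h2
    refine h2.congr' ?_
    filter_upwards [eventually_ge_atTop 1] with N hN
    have : (N : ℝ) ≠ 0 := by exact_mod_cast (by omega : N ≠ 0)
    field_simp
  have h3 := Real.tendsto_nat_mul_log_one_add_of_tendsto h0
  have h4 := (Real.continuous_exp.tendsto _).comp (hj.mul h3)
  rw [show r * -k = -(k * r) by ring] at h4
  refine h4.congr' ?_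
  filter_upwards [eventually_ge_atTop 1,
    h1.eventually (lt_mem_nhds (show (-1 : ℝ) < 0 by norm_num))] with N hN hN1
  have hN0 : (N : ℝ) ≠ 0 := by exact_mod_cast (by omega : N ≠ 0)
  have hpos : 0 < y N := by linarith
  simp only [Function.comp, add_sub_cancel]
  rw [show (j N : ℝ) / N * (N * Real.log (y N)) = j N * Real.log (y N) by field_simp,
    ← Real.log_pow, Real.exp_log (pow_pos hpos _)]

theorem conv {φ : ℝ → ℝ} {τ T α a s s0 : ℝ} (hcont : ContinuousOn φ (Ici 0)) (hτ : 0 ≤ τ)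
    (hT : τ ≤ T) (ha : 0 < a) (hs : 0 < s) (t : ℝ) (j : ℕ → ℕ)
    (hj : Tendsto (fun N : ℕ => (j N : ℝ) / N) atTop (𝓝 t)) :
    Tendsto (fun N => vv φ τ T α a s s0 N (j N)) atTop (𝓝 (qq φ τ T α a s s0 t)) := by
  have h0 := floor_lim hτ
  have hn : Tendsto (fun N : ℕ => (nn τ T N : ℝ) / N) atTop (𝓝 T) := by
    have h1 := h0.add (floor_lim (sub_nonneg.2 hT))
    rw [add_sub_cancel] at h1
    refine h1.congr fun N => ?_
    simp [nn, add_div]
  have hmin : Tendsto (fun N : ℕ => ((min (j N) (nn τ T N) : ℕ) : ℝ) / N) atTop (𝓝 (min t T)) := by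
    refine (hj.min hn).congr fun N => ?_
    rw [Nat.cast_min, min_div_div_right (Nat.cast_nonneg N)]
  have hom := ((om_cont α hcont hτ).tendsto _).comp (conv_sub hmin h0)
  have e : om φ τ α (max (min t T - τ) 0) = om φ τ α (min t T - τ) := by simp [om]
  rw [e] at hom
  have hy : Tendsto (fun N : ℕ => (N : ℝ) * (1 - (xx a N + ww s N - 1))) atTop (𝓝 (a + s)) := by
    refine ((xx_lim a).add_const s).congr' ?_
    filter_upwards [eventually_ge_atTop 1] with N hN
    have hN0 : (N : ℝ) ≠ 0 := by exact_mod_cast (by omega : N ≠ 0)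
    simp only [ww]
    field_simp
    ring
  have hc : Tendsto (fun N => cc a s s0 N) atTop (𝓝 (s0 / (a + s))) := by
    refine ((exp_lim s0).div hy (add_pos ha hs).ne').congr' ?_
    filter_upwards [eventually_ge_atTop 1] with N hN
    have hN0 : (N : ℝ) ≠ 0 := by exact_mod_cast (by omega : N ≠ 0)
    simp only [cc, Pi.div_apply]
    rw [mul_div_mul_left _ _ hN0]
  exact ((Real.continuous_exp.tendsto _).comp ((hmin.const_mul a).neg.sub hom)).mul
    ((hc.const_add 1).sub (hc.mul (conv_pow hy (conv_sub hj hn))))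

end Pool.Agent.Lib.MP_0f714a_pr
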