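import Pool.Agent.Lib.MP_0f714a_pr.Iz.Cvx
import Pool.Agent.Lib.MP_0f714a_pr.Iz.Conv

/-!
The cofactor has a concave exponent.
-/

open MeasureTheory Filter Topology Set
open scoped NNReal

namespace Pool.Agent.Lib.MP_0f714a_pr

universe u

lemma cof_bump {σ c r : ℝ} (hσ : 0 ≤ σ) (hc : 0 ≤ c) (hr : 0 ≤ r) :
    1 ≤ 1 + c - c * Real.exp (-(σ * r)) := by
  have : Real.exp (-(σ * r)) ≤ 1 := Real.exp_le_one_iff.2 (neg_nonpos.2 (mul_nonneg hσ hr))
  nlinarith

theorem qq_pos (φ : ℝ → ℝ) (τ T α : ℝ) {a s s0 : ℝ} (ha : 0 < a) (hs : 0 < s) (hs0 : 0 < s0)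
    (t : ℝ) : 0 < qq φ τ T α a s s0 t :=
  mul_pos (Real.exp_pos _) (zero_lt_one.trans_le
    (cof_bump (by positivity) (by positivity) (le_max_right _ _)))

theorem qq_zero (φ : ℝ → ℝ) {τ T : ℝ} (α a s s0 : ℝ) (hτ : 0 ≤ τ) (hT : τ ≤ T) :
    qq φ τ T α a s s0 0 = 1 := by
  have h : 0 ≤ T := hτ.trans hT
  simp [qq, om, h, hτ]

theorem qq_cont {φ : ℝ → ℝ} {τ : ℝ} (T α a s s0 : ℝ) (hcont : ContinuousOn φ (Ici 0))
    (hτ : 0 ≤ τ) : Continuous (qq φ τ T α a s s0) := by
  have h := om_cont α hcont hτ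
  unfold qq
  fun_prop

theorem qq_lt (φ : ℝ → ℝ) (τ α : ℝ) {T a s s0 : ℝ} (hT : 0 < T) (ha : 0 < a) (hs : 0 < s)
    (hs0 : 0 < s0) : qq φ τ T α a s s0 T < qq φ τ T α a s s0 (T + T) := by
  unfold qq
  rw [min_self, min_eq_right (by linarith : T ≤ T + T), add_sub_cancel_right, max_eq_left hT.le]
  refine mul_lt_mul_of_pos_left ?_ (Real.exp_pos _)
  have h1 : Real.exp (-((a + s) * T)) < 1 := by
    rw [Real.exp_lt_one_iff, neg_lt_zero]; positivity
  have h2 : 0 < s0 / (a + s) := by positivity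
  simp only [sub_self, max_self, mul_zero, neg_zero, Real.exp_zero]
  nlinarith

lemma cof_log (φ : ℝ → ℝ) (τ T α : ℝ) {a s s0 : ℝ} (ha : 0 < a) (hs : 0 < s) (hs0 : 0 < s0)
    (t : ℝ) : Real.log (qq φ τ T α a s s0 t) = -(a * min t T) - om φ τ α (min t T - τ) +
      Real.log (1 + s0 / (a + s) - s0 / (a + s) * Real.exp (-((a + s) * max (t - T) 0))) := by
  unfold qq
  rw [Real.log_mul (Real.exp_pos _).ne' (zero_lt_one.trans_le
    (cof_bump (by positivity) (by positivity) (le_max_right _ _))).ne', Real.log_exp]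

theorem cof_lower {φ : ℝ → ℝ} {τ T α β κ a s s0 : ℝ} (hm : MonotoneOn φ (Ici 0)) (h0 : φ 0 = 0)
    (hp : Picked φ τ T α β κ) (ha : 0 < a) (hs : 0 < s) (hs0 : 0 < s0) (t : ℝ) (ht : 0 ≤ t) :
    -(a * T) ≤ φ t + Real.log (qq φ τ T α a s s0 t) := by
  rw [cof_log φ τ T α ha hs hs0]
  have h1 : 0 ≤ φ t := by rw [← h0]; exact hm (mem_Ici.2 le_rfl) (mem_Ici.2 ht) ht
  have h2 : a * min t T ≤ a * T := mul_le_mul_of_nonneg_left (min_le_right _ _) ha.le
  have h3 := Real.log_nonneg (cof_bump (σ := a + s) (c := s0 / (a + s)) (r := max (t - T) 0)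
    (by positivity) (by positivity) (le_max_right _ _))
  have h4 : om φ τ α (min t T - τ) ≤ 0 := by
    have h5 : max (min t T - τ) 0 ≤ T - τ :=
      max_le (by linarith [min_le_right t T]) (sub_nonneg.2 hp.τ_le)
    have h6 := hp.mid τ (τ + max (min t T - τ) 0) le_rfl
      (le_add_of_nonneg_right (le_max_right _ _)) (by linarith)
    simp only [sub_self, mul_zero, sub_zero, add_sub_cancel_left] at h6
    unfold om
    linarith
  linarith

lemma cof_lin (k l : ℝ) {S : Set ℝ} (hS : Convex ℝ S) : ConcaveOn ℝ S (fun t => k * t + l) := by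
  refine ⟨hS, fun x _ y _ a b _ _ hab => le_of_eq ?_⟩
  simp only [smul_eq_mul]
  linear_combination l * hab

lemma cof_bump_concave {σ c : ℝ} (T : ℝ) (hσ : 0 ≤ σ) (hc : 0 ≤ c) :
    ConcaveOn ℝ (Ici T) (fun t => Real.log (1 + c - c * Real.exp (-(σ * (t - T))))) := by
  refine ⟨convex_Ici T, fun x hx y hy a b ha hb hab => ?_⟩
  have h1 := cof_bump hσ hc (sub_nonneg.2 (mem_Ici.1 hx))
  have h2 := cof_bump hσ hc (sub_nonneg.2 (mem_Ici.1 hy))
  have h3 := strictConcaveOn_log_Ioi.concaveOn.2 (mem_Ioi.2 (zero_lt_one.trans_le h1))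
    (mem_Ioi.2 (zero_lt_one.trans_le h2)) ha hb hab
  have h4 := convexOn_exp.2 (mem_univ (-(σ * (x - T)))) (mem_univ (-(σ * (y - T)))) ha hb hab
  simp only [smul_eq_mul] at h3 h4 ⊢
  have e : a * -(σ * (x - T)) + b * -(σ * (y - T)) = -(σ * (a * x + b * y - T)) := by
    linear_combination (σ * T) * hab
  rw [e] at h4
  refine h3.trans (Real.log_le_log ?_ ?_)
  · have h5 := mul_le_mul_of_nonneg_left h1 ha
    have h6 := mul_le_mul_of_nonneg_left h2 hb
    linarith
  · have h5 := mul_le_mul_of_nonneg_left h4 hc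
    have h6 : a * (1 + c) + b * (1 + c) = 1 + c := by rw [← add_mul, hab, one_mul]
    linarith

lemma cof_bump_anti {σ c : ℝ} (T : ℝ) (hσ : 0 ≤ σ) (hc : 0 ≤ c) :
    AntitoneOn (fun t => Real.log (1 + c - c * Real.exp (-(σ * (t - T)))) +
      (-(c * σ) * t + c * σ * T)) (Ici T) := by
  intro x hx y _ hxy
  have hx' : 0 ≤ x - T := sub_nonneg.2 (mem_Ici.1 hx)
  have h1 := cof_bump hσ hc hx'
  have h2 := cof_bump hσ hc (show 0 ≤ y - T by linarith)
  have e : Real.exp (-(σ * (y - T))) = Real.exp (-(σ * (x - T))) * Real.exp (-(σ * (y - x))) := by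
    rw [← Real.exp_add]; congr 1; ring
  have h3 := Real.add_one_le_exp (-(σ * (y - x)))
  have h4 : Real.exp (-(σ * (x - T))) ≤ 1 :=
    Real.exp_le_one_iff.2 (neg_nonpos.2 (mul_nonneg hσ hx'))
  have h5 := Real.exp_pos (-(σ * (x - T)))
  have h6 : 0 ≤ σ * (y - x) := mul_nonneg hσ (sub_nonneg.2 hxy)
  have h7 : Real.exp (-(σ * (x - T))) - Real.exp (-(σ * (y - T))) ≤ σ * (y - x) := by
    rw [e]; nlinarith
  have h8 := mul_le_mul_of_nonneg_left h7 hc
  have h9 := Real.add_one_le_exp (c * (σ * (y - x)))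
  have h10 : 0 ≤ c * (σ * (y - x)) := mul_nonneg hc h6
  have h11 : 1 + c - c * Real.exp (-(σ * (y - T))) ≤
      (1 + c - c * Real.exp (-(σ * (x - T)))) * Real.exp (c * (σ * (y - x))) := by
    nlinarith
  have h12 := Real.log_le_log (zero_lt_one.trans_le h2) h11
  rw [Real.log_mul (zero_lt_one.trans_le h1).ne' (Real.exp_pos _).ne', Real.log_exp] at h12
  simp only
  linarith

theorem cof_concave {φ : ℝ → ℝ} {τ T α β κ a s s0 : ℝ} (hc : ConcaveOn ℝ (Ici 0) φ)
    (hp : Picked φ τ T α β κ) (hl : a + s0 = α - β) (ha : 0 < a) (hs : 0 < s) (hs0 : 0 < s0) :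
    ConcaveOn ℝ (Ici 0) (fun t => φ t + Real.log (qq φ τ T α a s s0 t)) := by
  have hT : 0 ≤ T := hp.τ_pos.le.trans hp.τ_le
  have hσ : 0 < a + s := add_pos ha hs
  have hcσ : s0 / (a + s) * (a + s) = s0 := by field_simp
  have c1 := concave_min (f := fun t => φ t + (-α * t + 0)) hp.τ_pos.le
    ((hc.subset Icc_subset_Ici_self (convex_Icc _ _)).add (cof_lin _ _ (convex_Icc _ _)))
    (fun x hx y hy hxy => by
      have := hp.left x y hx.1 hxy hy.2
      simp only
      linarith)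
  have c2 := cof_lin (α - a) (β * T - φ T) (convex_Ici (0 : ℝ))
  have c3 := concave_max (f := fun t => φ t + (-β * t + 0)) (T := T)
    ((hc.subset (Ici_subset_Ici.2 hT) (convex_Ici _)).add (cof_lin _ _ (convex_Ici _)))
    (fun x hx y _ hxy => by
      have := hp.right x y hx hxy
      simp only
      linarith)
  have c4 := concave_max (T := T)
    ((cof_bump_concave (σ := a + s) (c := s0 / (a + s)) T hσ.le (by positivity)).add
      (cof_lin _ _ (convex_Ici _))) (cof_bump_anti T hσ.le (by positivity))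
  refine (((c1.add c2).add c3).add c4).congr fun t _ => ?_
  simp only [Pi.add_apply, cof_log φ τ T α ha hs hs0, hcσ, om]
  have hβ : β = α - a - s0 := by linarith
  rcases le_total t τ with h1 | h1
  · have h2 : t ≤ T := h1.trans hp.τ_le
    simp only [min_eq_left h1, min_eq_left h2, max_eq_right h2, max_eq_right (sub_nonpos.2 h1),
      max_eq_right (sub_nonpos.2 h2), sub_self, add_zero]
    ring
  · rcases le_total t T with h2 | h2
    · simp only [min_eq_right h1, min_eq_left h2, max_eq_right h2, max_eq_left (sub_nonneg.2 h1),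
        max_eq_right (sub_nonpos.2 h2), sub_self, add_zero, add_sub_cancel]
      ring
    · simp only [min_eq_right h1, min_eq_right h2, max_eq_left h2,
        max_eq_left (sub_nonneg.2 hp.τ_le), max_eq_left (sub_nonneg.2 h2), add_zero,
        add_sub_cancel]
      rw [hβ]
      ring

end Pool.Agent.Lib.MP_0f714a_pr
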