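import Pool.Agent.Lib.MP_0f714a_pr.Iz.Defs

/-!
Four facts on concave functions.
-/

open MeasureTheory Filter Topology Set
open scoped NNReal

namespace Pool.Agent.Lib.MP_0f714a_pr

universe u

theorem mono_of_concave {f : ℝ → ℝ} {B : ℝ} (hc : ConcaveOn ℝ (Ici 0) f)
    (hb : ∀ t, 0 ≤ t → B ≤ f t) : MonotoneOn f (Ici 0) := by
  intro x hx y hy hxy
  by_contra hlt
  have hlt' : f y < f x := not_le.1 hlt
  have hne : x < y := lt_of_le_of_ne hxy (by rintro rfl; exact lt_irrefl _ hlt')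
  have hBy := hb y hy
  set z := y + (f y - B + 1) * (y - x) / (f x - f y) with hz
  have hd : 0 < (f y - B + 1) * (y - x) / (f x - f y) :=
    div_pos (mul_pos (by linarith) (by linarith)) (by linarith)
  have hyz : y < z := by linarith
  have hz0 : z ∈ Ici (0 : ℝ) := le_trans hy hyz.le
  have h1 := hc.slope_anti_adjacent hx hz0 hne hyz
  rw [div_le_div_iff₀ (by linarith) (by linarith)] at h1
  have h2 : (f y - f x) * (z - y) = -((f y - B + 1) * (y - x)) := by
    have : f x - f y ≠ 0 := by linarith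
    rw [hz]; field_simp; ring
  have h3 := hb z hz0
  rw [h2] at h1
  nlinarith

theorem concave_of_mid {f : ℝ → ℝ} (hcont : ContinuousOn f (Ici 0))
    (hm : ∀ x h, 0 ≤ x → 0 ≤ h → f x + f (x + 2 * h) ≤ 2 * f (x + h)) :
    ConcaveOn ℝ (Ici 0) f := by
  refine concaveOn_of_slope_anti_adjacent (convex_Ici 0) ?_
  intro x y z hx hz hxy hyz
  by_contra hlt
  rw [not_le, div_lt_div_iff₀ (by linarith) (by linarith)] at hlt
  have hx0 : (0 : ℝ) ≤ x := hx
  set m := (f z - f x) / (z - x) with hm'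
  have hmz : m * (z - x) = f z - f x := by
    have : z - x ≠ 0 := by linarith
    rw [hm']; field_simp
  let g : ℝ → ℝ := fun t => f t - f x - m * (t - x)
  have hsub : Icc x z ⊆ Ici (0 : ℝ) := fun t ht => le_trans hx0 ht.1
  have hg : ContinuousOn g (Icc x z) :=
    ((hcont.mono hsub).sub continuousOn_const).sub (by fun_prop)
  have hgx : g x = 0 := by simp [g]
  have hgz : g z = 0 := by simp only [g]; linarith
  have hgy : g y < 0 := by
    have h1 : g y * (z - x) < 0 := by
      have : g y * (z - x) = (f y - f x) * (z - x) - (f z - f x) * (y - x) := by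
        simp only [g]; rw [← hmz]; ring
      rw [this]; nlinarith
    by_contra h2
    have := mul_nonneg (not_lt.1 h2) (show 0 ≤ z - x by linarith)
    linarith
  obtain ⟨c, hc, hcmin⟩ := isCompact_Icc.exists_isMinOn ⟨y, hxy.le, hyz.le⟩ hg
  have hcy : g c ≤ g y := hcmin ⟨hxy.le, hyz.le⟩
  have hK : IsCompact (Icc x z ∩ g ⁻¹' {g c}) :=
    isCompact_Icc.of_isClosed_subset
      (hg.preimage_isClosed_of_isClosed isClosed_Icc isClosed_singleton) inter_subset_left
  obtain ⟨d, hd⟩ := hK.exists_isLeast ⟨c, hc, rfl⟩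
  have hdI : d ∈ Icc x z := hd.1.1
  have hgd : g d = g c := hd.1.2
  have hxd : x < d := lt_of_le_of_ne hdI.1 (by rintro rfl; linarith)
  have hdz : d < z := lt_of_le_of_ne hdI.2 (by rintro rfl; linarith)
  set h := min (d - x) (z - d) with hh
  have hh0 : 0 < h := lt_min (by linarith) (by linarith)
  have hh1 : h ≤ d - x := min_le_left _ _
  have hh2 : h ≤ z - d := min_le_right _ _
  have h1 := hm (d - h) h (by linarith) hh0.le
  rw [show d - h + 2 * h = d + h by ring, show d - h + h = d by ring] at h1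
  have h2 : g c ≤ g (d + h) := hcmin ⟨by linarith, by linarith⟩
  have h3 : g c ≤ g (d - h) := hcmin ⟨by linarith, by linarith⟩
  have h4 : g (d - h) + g (d + h) ≤ 2 * g d := by simp only [g]; linarith
  have h5 : g (d - h) = g c := by linarith
  have h6 : d ≤ d - h := hd.2 ⟨⟨by linarith, by linarith⟩, h5⟩
  linarith

theorem concave_min {f : ℝ → ℝ} {τ : ℝ} (hτ : 0 ≤ τ) (hc : ConcaveOn ℝ (Icc 0 τ) f)
    (hm : MonotoneOn f (Icc 0 τ)) : ConcaveOn ℝ (Ici 0) (fun t => f (min t τ)) := by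
  refine ⟨convex_Ici 0, fun x hx y hy a b ha hb hab => ?_⟩
  have hx' : min x τ ∈ Icc 0 τ := ⟨le_min hx hτ, min_le_right _ _⟩
  have hy' : min y τ ∈ Icc 0 τ := ⟨le_min hy hτ, min_le_right _ _⟩
  have hxy : (0 : ℝ) ≤ a • x + b • y := (convex_Ici 0) hx hy ha hb hab
  refine (hc.2 hx' hy' ha hb hab).trans
    (hm (hc.1 hx' hy' ha hb hab) ⟨le_min hxy hτ, min_le_right _ _⟩ (le_min ?_ ?_))
  · simp only [smul_eq_mul]
    exact add_le_add (mul_le_mul_of_nonneg_left (min_le_left _ _) ha)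
      (mul_le_mul_of_nonneg_left (min_le_left _ _) hb)
  · exact (hc.1 hx' hy' ha hb hab).2

theorem concave_max {f : ℝ → ℝ} {T : ℝ} (hc : ConcaveOn ℝ (Ici T) f)
    (hm : AntitoneOn f (Ici T)) : ConcaveOn ℝ (Ici 0) (fun t => f (max t T)) := by
  refine ⟨convex_Ici 0, fun x _ y _ a b ha hb hab => ?_⟩
  have hx' : max x T ∈ Ici T := mem_Ici.2 (le_max_right _ _)
  have hy' : max y T ∈ Ici T := mem_Ici.2 (le_max_right _ _)
  refine (hc.2 hx' hy' ha hb hab).trans
    (hm (mem_Ici.2 (le_max_right _ _)) (hc.1 hx' hy' ha hb hab) (max_le ?_ ?_))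
  · simp only [smul_eq_mul]
    exact add_le_add (mul_le_mul_of_nonneg_left (le_max_left _ _) ha)
      (mul_le_mul_of_nonneg_left (le_max_left _ _) hb)
  · exact hc.1 hx' hy' ha hb hab

end Pool.Agent.Lib.MP_0f714a_pr
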