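import Pool.Agent.Lib.MP_0f714a_pr.Iz.Basic
import Pool.Agent.Lib.MP_0f714a_pr.Iz.Cvx

/-!
An infinitely divisible standard p-function has a concave exponent.
-/

open MeasureTheory Filter Topology Set
open scoped NNReal

namespace Pool.Agent.Lib.MP_0f714a_pr

universe u

theorem conc {p : ℝ≥0 → ℝ} (hp : IsStandard.{u} p) (hi : IsInfDiv.{u} p) :
    ∃ φ : ℝ → ℝ, ConcaveOn ℝ (Ici 0) φ ∧ ContinuousOn φ (Ici 0) ∧ MonotoneOn φ (Ici 0) ∧
      φ 0 = 0 ∧ ∀ t : ℝ≥0, p t = Real.exp (-φ t) := by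
  let ψ : ℝ≥0 → ℝ := fun t => Real.log (p t)
  have hψ : Continuous ψ := hp.cont.log fun t => (hp.pos t).ne'
  have key : ∀ r s t : ℝ≥0, 0 ≤ ψ (r + s + t) - (ψ r + ψ (s + t)) - (ψ (r + s) + ψ t) +
      (ψ r + ψ s + ψ t) := by
    intro r s t
    have h1 := (((exp_lim (ψ (r + s + t))).sub (exp_lim (ψ r + ψ (s + t)))).sub
      (exp_lim (ψ (r + s) + ψ t))).add (exp_lim (ψ r + ψ s + ψ t))
    refine ge_of_tendsto h1 ?_
    filter_upwards [eventually_ge_atTop 1] with n hn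
    obtain ⟨q, hq, hqn⟩ := hi n hn
    have hn0 : (0 : ℝ) < n := by exact_mod_cast hn
    have hqe : ∀ x, q x = Real.exp (ψ x / n) := by
      intro x
      simp only [ψ]
      rw [← hqn x, Real.log_pow, mul_div_cancel_left₀ _ hn0.ne', Real.exp_log (hq.pos x)]
    have h2 := hq.1.three_point r s t
    simp only [hqe] at h2
    simp only [add_div, Real.exp_add]
    have := mul_nonneg hn0.le h2
    linarith
  let φ : ℝ → ℝ := fun t => -ψ t.toNNReal
  have hφ : Continuous φ := (hψ.comp continuous_real_toNNReal).neg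
  have hc : ConcaveOn ℝ (Ici 0) φ := by
    refine concave_of_mid hφ.continuousOn fun x h hx hh => ?_
    have h1 := key h.toNNReal x.toNNReal h.toNNReal
    have e1 : (x + h).toNNReal = x.toNNReal + h.toNNReal := Real.toNNReal_add hx hh
    have e2 : (x + 2 * h).toNNReal = h.toNNReal + x.toNNReal + h.toNNReal := by
      rw [show x + 2 * h = h + x + h by ring, Real.toNNReal_add (add_nonneg hh hx) hh,
        Real.toNNReal_add hh hx]
    simp only [φ]
    rw [e1, e2]
    rw [add_comm h.toNNReal x.toNNReal] at h1 ⊢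
    linarith
  have hb : ∀ t, 0 ≤ t → 0 ≤ φ t := fun t _ =>
    neg_nonneg.2 (Real.log_nonpos (hp.1.2.1 _).1 (hp.1.2.1 _).2)
  refine ⟨φ, hc, hφ.continuousOn, mono_of_concave hc hb, by simp [φ, ψ, hp.1.1], fun t => ?_⟩
  simp [φ, ψ, Real.exp_log (hp.pos t)]

end Pool.Agent.Lib.MP_0f714a_pr
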