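import Pool.Agent.Lib.MP_0f714a_pr.Main

/-!
Data for the construction of a factor that is not infinitely divisible.
-/

open MeasureTheory Filter Topology Set
open scoped NNReal

namespace Pool.Agent.Lib.MP_0f714a_pr

universe u

/-- slope data of a concave function around the interval from `τ` to `T` -/
structure Picked (φ : ℝ → ℝ) (τ T α β κ : ℝ) : Prop where
  τ_pos : 0 < τ
  τ_le : τ ≤ T
  κ_nonneg : 0 ≤ κ
  left : ∀ x y, 0 ≤ x → x ≤ y → y ≤ τ → α * (y - x) ≤ φ y - φ x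
  mid : ∀ x y, τ ≤ x → x ≤ y → y ≤ T → φ y - φ x ≤ (α - κ * (x - τ)) * (y - x)
  all : ∀ x y, 0 ≤ x → x ≤ y → y ≤ T → β * (y - x) ≤ φ y - φ x
  right : ∀ x y, T ≤ x → x ≤ y → φ y - φ x ≤ β * (y - x)

/-- the three inequalities between the parameters -/
structure Par (τ δ κ a s s0 : ℝ) : Prop where
  a_pos : 0 < a
  s0_pos : 0 < s0
  a_lt : a < s
  i : Real.exp ((a + s0) * δ) * (a + s0) * (s - a) < a * s * (1 - Real.exp (-((s - a) * τ)))
  ii : s0 * (a + s0 + s) + a * s * (a + s0) * δ * Real.exp (a * δ) < (a + s0) ^ 2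
  iii : a * s * Real.exp (a * δ) < κ

/-- the shape of the discrete sequence -/
structure Shape (v : ℕ → ℝ) (n0 n1 : ℕ) (x y ρ k : ℝ) : Prop where
  v0 : v 0 = 1
  pos : ∀ n, n ≤ n1 → 0 < v n
  le01 : n0 ≤ n1
  flat : ∀ n, n < n0 → v (n + 1) = x * v n
  conv : ∀ n, n + 1 ≤ n1 → v (n + 1) ^ 2 ≤ v n * v (n + 2)
  low : ∀ n, n0 ≤ n → n < n1 → (x + k * ((n : ℝ) - n0)) * v n ≤ v (n + 1)
  top : v (n1 + 1) = ρ * v n1
  tail : ∀ n, n1 ≤ n → v (n + 2) - v (n + 1) = y * (v (n + 1) - v n)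

/-- the discrete inequalities between the parameters -/
structure Nums (n0 m : ℕ) (x w ρ k E E' : ℝ) : Prop where
  one_le : 1 ≤ n0
  w_nonneg : 0 ≤ w
  w_lt : w < x
  x_le : x ≤ 1
  hE : 1 ≤ E * x ^ m
  hE' : ρ ^ m ≤ E' * x ^ m
  i : E' * (ρ - x) * (x - w) * x ^ n0 ≤ (1 - x) * (1 - w) * (x ^ n0 - w ^ n0)
  ii : (1 - x) * (1 - w) * (ρ - x) * m * E ≤ (ρ - x) ^ 2 - (ρ - 1) * (ρ - (x + w - 1))
  iii : (1 - x) * (1 - w) * E ≤ k

/-- the part of the exponent removed between `τ` and `T` -/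
noncomputable def om (φ : ℝ → ℝ) (τ α t : ℝ) : ℝ := φ (τ + max t 0) - φ τ - α * max t 0

/-- the factor that is not infinitely divisible -/
noncomputable def qq (φ : ℝ → ℝ) (τ T α a s s0 t : ℝ) : ℝ :=
  Real.exp (-(a * min t T) - om φ τ α (min t T - τ)) *
    (1 + s0 / (a + s) - s0 / (a + s) * Real.exp (-((a + s) * max (t - T) 0)))

/-- first grid ratio -/
noncomputable def xx (a : ℝ) (N : ℕ) : ℝ := Real.exp (-(a / N))

/-- second grid ratio -/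
noncomputable def ww (s : ℝ) (N : ℕ) : ℝ := 1 - s / N

/-- grid position of `T` -/
noncomputable def nn (τ T : ℝ) (N : ℕ) : ℕ := ⌊τ * N⌋₊ + ⌊(T - τ) * N⌋₊

/-- size of the discrete bump -/
noncomputable def cc (a s s0 : ℝ) (N : ℕ) : ℝ :=
  (Real.exp (s0 / N) - 1) / (1 - (xx a N + ww s N - 1))

/-- the discrete sequence -/
noncomputable def vv (φ : ℝ → ℝ) (τ T α a s s0 : ℝ) (N n : ℕ) : ℝ :=
  Real.exp (-(a * (((min n (nn τ T N) : ℕ) : ℝ) / N)) -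
      om φ τ α (((min n (nn τ T N) - ⌊τ * N⌋₊ : ℕ) : ℝ) / N)) *
    (1 + cc a s s0 N - cc a s s0 N * (xx a N + ww s N - 1) ^ (n - nn τ T N))

lemma exp_lim (c : ℝ) :
    Tendsto (fun n : ℕ => (n : ℝ) * (Real.exp (c / n) - 1)) atTop (𝓝 c) := by
  have h1 : HasDerivAt (fun z : ℝ => Real.exp (c * z)) c 0 := by
    simpa using ((hasDerivAt_id (0 : ℝ)).const_mul c).exp
  have h2 : Tendsto (fun n : ℕ => ((n : ℝ))⁻¹) atTop (𝓝[≠] 0) := by
    refine tendsto_nhdsWithin_iff.2 ⟨tendsto_inv_atTop_nhds_zero_nat, ?_⟩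
    filter_upwards [eventually_ge_atTop 1] with n hn
    have : (n : ℝ) ≠ 0 := by exact_mod_cast (by omega : n ≠ 0)
    simpa using this
  have h3 := h1.tendsto_slope_zero.comp h2
  refine h3.congr fun n => ?_
  simp [div_eq_mul_inv]

lemma floor_lim {t : ℝ} (ht : 0 ≤ t) :
    Tendsto (fun N : ℕ => ((⌊t * N⌋₊ : ℕ) : ℝ) / N) atTop (𝓝 t) :=
  (tendsto_nat_floor_mul_div_atTop (R := ℝ) ht).comp tendsto_natCast_atTop_atTop

lemma xx_lim (a : ℝ) : Tendsto (fun N : ℕ => (N : ℝ) * (1 - xx a N)) atTop (𝓝 a) := by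
  have h := (exp_lim (-a)).neg
  rw [neg_neg] at h
  refine h.congr fun N => ?_
  simp only [xx, neg_div]
  ring

end Pool.Agent.Lib.MP_0f714a_pr
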