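import Pool.Agent.Lib.MP_0f714a_pr.Iz.Defs

/-!
The two families of discrete inequalities.
-/

open MeasureTheory Filter Topology Set
open scoped NNReal

namespace Pool.Agent.Lib.MP_0f714a_pr

universe u

section
variable {v : ℕ → ℝ} {n0 n1 : ℕ} {x y ρ k : ℝ}

lemma disc_step (hs : Shape v n0 n1 x y ρ k) {n : ℕ} (hn : n + 1 ≤ n1) :
    v (n + 1) / v n ≤ v (n + 2) / v (n + 1) := by
  have h1 := hs.pos n (by omega)
  have h2 := hs.pos (n + 1) hn
  rw [div_le_div_iff₀ h1 h2]
  have := hs.conv n hn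
  nlinarith

lemma disc_mono (hs : Shape v n0 n1 x y ρ k) {i j : ℕ} (hij : i ≤ j) (hj : j ≤ n1) :
    v (i + 1) / v i ≤ v (j + 1) / v j := by
  induction j, hij using Nat.le_induction with
  | base => exact le_rfl
  | succ j hij ih => exact (ih (by omega)).trans (disc_step hs hj)

lemma disc_lo (hs : Shape v n0 n1 x y ρ k) (h1 : 1 ≤ n0) {j : ℕ} (hj : j ≤ n1) :
    x ≤ v (j + 1) / v j := by
  have h := disc_mono hs (Nat.zero_le j) hj
  rw [hs.flat 0 h1, hs.v0] at h
  simpa using h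

lemma disc_hi (hs : Shape v n0 n1 x y ρ k) {j : ℕ} (hj : j ≤ n1) : v (j + 1) / v j ≤ ρ := by
  have h := disc_mono hs hj le_rfl
  rw [hs.top, mul_div_assoc, div_self (hs.pos n1 le_rfl).ne', mul_one] at h
  exact h

lemma disc_up (hs : Shape v n0 n1 x y ρ k) (h1 : 1 ≤ n0) (hx : 0 ≤ x) {i : ℕ} (d : ℕ)
    (hd : i + d ≤ n1) : x ^ d * v i ≤ v (i + d) := by
  induction d with
  | zero => simp
  | succ d ih =>
    have h2 := ih (by omega)
    have h3 := disc_lo hs h1 (j := i + d) (by omega)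
    rw [le_div_iff₀ (hs.pos _ (by omega))] at h3
    calc x ^ (d + 1) * v i = x * (x ^ d * v i) := by ring
      _ ≤ x * v (i + d) := mul_le_mul_of_nonneg_left h2 hx
      _ ≤ v (i + (d + 1)) := h3

lemma disc_flat (hs : Shape v n0 n1 x y ρ k) {n : ℕ} (hn : n ≤ n0) : v n = x ^ n := by
  induction n with
  | zero => simpa using hs.v0
  | succ n ih => rw [hs.flat n (by omega), ih (by omega), pow_succ, mul_comm]

lemma disc_down (hs : Shape v n0 n1 x y ρ k) (hρ : 0 ≤ ρ) (d : ℕ) (hd : n0 + d ≤ n1) :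
    v (n0 + d) ≤ ρ ^ d * x ^ n0 := by
  induction d with
  | zero => simp [disc_flat hs le_rfl]
  | succ d ih =>
    have h2 := ih (by omega)
    have h3 := disc_hi hs (j := n0 + d) (by omega)
    rw [div_le_iff₀ (hs.pos _ (by omega))] at h3
    calc v (n0 + (d + 1)) ≤ ρ * v (n0 + d) := h3
      _ ≤ ρ * (ρ ^ d * x ^ n0) := mul_le_mul_of_nonneg_left h2 hρ
      _ = _ := by ring

end

lemma disc_geom (x w : ℝ) (n : ℕ) :
    (∑ j ∈ Finset.range n, w ^ (n - 1 - j) * x ^ j) * (x - w) = x ^ n - w ^ n := by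
  rw [← geom_sum₂_mul x w n]
  congr 1
  exact Finset.sum_congr rfl fun j _ => mul_comm _ _

theorem discA {v : ℕ → ℝ} {n0 n1 : ℕ} {x w ρ k E E' : ℝ}
    (hs : Shape v n0 n1 x (x + w - 1) ρ k) (hn : Nums n0 (n1 - n0) x w ρ k E E') :
    ∀ n, n ≤ n1 → v (n + 1) - x * v n ≤
      (1 - x) * (1 - w) * ∑ j ∈ Finset.range n, w ^ (n - 1 - j) * v j := by
  intro n hn1
  have hw := hn.w_nonneg
  have hwx := hn.w_lt
  have hx0 : 0 < x := hw.trans_lt hwx
  have hb : 0 ≤ (1 - x) * (1 - w) :=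
    mul_nonneg (by linarith [hn.x_le]) (by linarith [hn.x_le])
  have hsum : ∑ j ∈ Finset.range n, w ^ (n - 1 - j) * x ^ j ≤
      ∑ j ∈ Finset.range n, w ^ (n - 1 - j) * v j := by
    refine Finset.sum_le_sum fun j hj => mul_le_mul_of_nonneg_left ?_ (pow_nonneg hw _)
    have h := disc_up hs hn.one_le hx0.le (i := 0) j (by have := Finset.mem_range.1 hj; omega)
    rw [hs.v0] at h
    simpa using h
  refine le_trans ?_ (mul_le_mul_of_nonneg_left hsum hb)
  have hS0 : 0 ≤ ∑ j ∈ Finset.range n, w ^ (n - 1 - j) * x ^ j :=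
    Finset.sum_nonneg fun j _ => by positivity
  rcases lt_or_ge n n0 with h | h
  · rw [hs.flat n h, sub_self]
    exact mul_nonneg hb hS0
  · obtain ⟨d, rfl⟩ := Nat.exists_eq_add_of_le h
    have hxρ : x ≤ ρ := (disc_lo hs hn.one_le hn1).trans (disc_hi hs hn1)
    have h1 := disc_hi hs hn1
    have hv := hs.pos _ hn1
    rw [div_le_iff₀ hv] at h1
    have h2 := disc_down hs (hx0.le.trans hxρ) d hn1
    obtain ⟨e, he⟩ : ∃ e, n1 - n0 = d + e := ⟨n1 - n0 - d, by omega⟩
    have h3 : ρ ^ d ≤ E' * x ^ d := by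
      have h4 := hn.hE'
      rw [he, pow_add, pow_add] at h4
      have h5 : x ^ e ≤ ρ ^ e := pow_le_pow_left₀ hx0.le hxρ e
      have h6 : ρ ^ d * x ^ e ≤ ρ ^ d * ρ ^ e :=
        mul_le_mul_of_nonneg_left h5 (pow_nonneg (hx0.le.trans hxρ) _)
      have h7 : ρ ^ d * x ^ e ≤ E' * x ^ d * x ^ e := by rw [mul_assoc]; linarith
      exact le_of_mul_le_mul_right h7 (pow_pos hx0 _)
    have h8 : v (n0 + d) ≤ E' * x ^ d * x ^ n0 :=
      h2.trans (mul_le_mul_of_nonneg_right h3 (pow_nonneg hx0.le _))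
    have h9 : v (n0 + d + 1) - x * v (n0 + d) ≤ (ρ - x) * (E' * x ^ d * x ^ n0) := by
      have := mul_le_mul_of_nonneg_left h8 (sub_nonneg.2 hxρ)
      linarith
    refine h9.trans (le_of_mul_le_mul_right ?_ (sub_pos.2 hwx))
    rw [mul_assoc ((1 - x) * (1 - w)), disc_geom]
    have h10 := mul_le_mul_of_nonneg_right hn.i (pow_nonneg hx0.le d)
    have h11 : w ^ n0 * w ^ d ≤ w ^ n0 * x ^ d :=
      mul_le_mul_of_nonneg_left (pow_le_pow_left₀ hw hwx.le d) (pow_nonneg hw _)
    have h12 := mul_le_mul_of_nonneg_left h11 hb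
    rw [pow_add, pow_add]
    nlinarith

theorem discB {v : ℕ → ℝ} {n0 n1 : ℕ} {x w ρ k E E' : ℝ}
    (hs : Shape v n0 n1 x (x + w - 1) ρ k) (hn : Nums n0 (n1 - n0) x w ρ k E E') :
    ∀ m, m ≤ n1 →
      (1 - x) * (1 - w) * ∑ i ∈ Finset.range m, w ^ (m - 1 - i) * (v (i + 1) - x * v i) ≤
        (v (m + 2) - x * v (m + 1)) - x * (v (m + 1) - x * v m) := by
  intro m hm
  have hw := hn.w_nonneg
  have hwx := hn.w_lt
  have hx0 : 0 < x := hw.trans_lt hwx
  have hx1 := hn.x_le
  have hb : 0 ≤ (1 - x) * (1 - w) := mul_nonneg (by linarith) (by linarith)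
  have hvm := hs.pos m hm
  set r := v (m + 1) / v m with hr
  have hxr : x ≤ r := disc_lo hs hn.one_le hm
  have hE0 : 0 ≤ E := by
    by_contra hc
    have := mul_nonpos_of_nonpos_of_nonneg (not_le.1 hc).le (pow_nonneg hx0.le (n1 - n0))
    linarith [hn.hE]
  have hvr : v (m + 1) = r * v m := by rw [hr]; field_simp
  have hsum : ∑ i ∈ Finset.range m, w ^ (m - 1 - i) * (v (i + 1) - x * v i) ≤
      ((m - n0 : ℕ) : ℝ) * (E * v m * (r - x)) := by
    have hsub : Finset.Ico n0 m ⊆ Finset.range m := by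
      intro i hi
      exact Finset.mem_range.2 (Finset.mem_Ico.1 hi).2
    rw [← Finset.sum_subset hsub]
    · rw [← Nat.card_Ico n0 m, ← nsmul_eq_mul]
      refine Finset.sum_le_card_nsmul (Finset.Ico n0 m)
        (fun i => w ^ (m - 1 - i) * (v (i + 1) - x * v i)) (E * v m * (r - x)) fun i hi => ?_
      obtain ⟨hi0, him⟩ := Finset.mem_Ico.1 hi
      have hvi := hs.pos i (by omega)
      have h1 := disc_mono hs him.le hm
      have h2 := disc_lo hs hn.one_le (j := i) (by omega)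
      rw [← hr, div_le_iff₀ hvi] at h1
      rw [le_div_iff₀ hvi] at h2
      have h3 : w ^ (m - 1 - i) ≤ 1 := pow_le_one₀ hw (by linarith)
      have h4 := disc_up hs hn.one_le hx0.le (i := i) (m - i) (by omega)
      rw [show i + (m - i) = m by omega] at h4
      have h5 : x ^ (n1 - n0) ≤ x ^ (m - i) := pow_le_pow_of_le_one hx0.le hx1 (by omega)
      have h6 : v i ≤ E * v m := by
        calc v i ≤ E * x ^ (n1 - n0) * v i := le_mul_of_one_le_left hvi.le hn.hE
          _ ≤ E * x ^ (m - i) * v i := by gcongr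
          _ = E * (x ^ (m - i) * v i) := by ring
          _ ≤ E * v m := mul_le_mul_of_nonneg_left h4 hE0
      calc w ^ (m - 1 - i) * (v (i + 1) - x * v i) ≤ v (i + 1) - x * v i :=
            mul_le_of_le_one_left (by linarith) h3
        _ ≤ v i * (r - x) := by linarith
        _ ≤ E * v m * (r - x) := mul_le_mul_of_nonneg_right h6 (sub_nonneg.2 hxr)
    · intro i hi hi'
      have h1 : i < n0 := by
        have := Finset.mem_range.1 hi
        rw [Finset.mem_Ico] at hi'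
        omega
      rw [hs.flat i h1, sub_self, mul_zero]
  refine (mul_le_mul_of_nonneg_left hsum hb).trans ?_
  rcases hm.eq_or_lt with h | h
  · subst h
    have h1 : r = ρ := by rw [hr, hs.top]; field_simp
    have h2 := hs.tail m le_rfl
    have h3 := mul_le_mul_of_nonneg_right hn.ii hvm.le
    have h4 : v (m + 2) = v (m + 1) + (x + w - 1) * (v (m + 1) - v m) := by linarith
    rw [h4, hvr, h1]
    nlinarith
  · have h1 := disc_step hs (n := m) h
    rw [← hr, le_div_iff₀ (hs.pos _ h)] at h1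
    have h2 : (1 - x) * (1 - w) * E * ((m - n0 : ℕ) : ℝ) ≤ r - x := by
      rcases lt_or_ge m n0 with h3 | h3
      · rw [Nat.sub_eq_zero_of_le h3.le]
        simp only [Nat.cast_zero, mul_zero]
        linarith
      · have h4 := hs.low m h3 h
        rw [hvr] at h4
        have h5 := le_of_mul_le_mul_right h4 hvm
        have h6 := mul_le_mul_of_nonneg_right hn.iii (Nat.cast_nonneg (α := ℝ) (m - n0))
        rw [Nat.cast_sub h3] at h6 ⊢
        linarith
    have h7 := mul_le_mul_of_nonneg_right h2 (mul_nonneg hvm.le (sub_nonneg.2 hxr))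
    rw [hvr] at h1 ⊢
    nlinarith

end Pool.Agent.Lib.MP_0f714a_pr
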