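import Pool.Agent.Lib.MP_0f714a_pr.Iz.Cvx

/-!
A concave exponent gives a standard p-function.
-/

open MeasureTheory Filter Topology Set
open scoped NNReal

namespace Pool.Agent.Lib.MP_0f714a_pr

universe u

theorem kal {R : ℝ → ℝ} {B : ℝ} (hc : ConcaveOn ℝ (Ici 0) R) (hcont : ContinuousOn R (Ici 0))
    (hb : ∀ t, 0 ≤ t → B ≤ R t) (h0 : R 0 = 0) :
    IsStandard.{u} (fun t : ℝ≥0 => Real.exp (-R t)) := by
  have hm := mono_of_concave hc hb
  refine ⟨isPFunction_of_approx _ (by simp [h0]) (fun N n => Real.exp (-R ((n : ℝ) / N))) ?_ ?_, ?_⟩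
  · refine Eventually.of_forall fun N => ?_
    have hin : ∀ n : ℕ, (n : ℝ) / N ∈ Ici (0 : ℝ) := fun n =>
      mem_Ici.2 (div_nonneg (Nat.cast_nonneg _) (Nat.cast_nonneg _))
    refine kaluza (by simp [h0]) (fun n => Real.exp_pos _) (fun n => ?_) (fun n => ?_)
    · rw [sq, ← Real.exp_add, ← Real.exp_add, Real.exp_le_exp]
      have h1 := hc.2 (hin n) (hin (n + 2)) (show (0 : ℝ) ≤ 1 / 2 by norm_num)
        (show (0 : ℝ) ≤ 1 / 2 by norm_num) (by norm_num)
      have e : (1 / 2 : ℝ) • ((n : ℝ) / N) + (1 / 2 : ℝ) • (((n + 2 : ℕ) : ℝ) / N) =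
          ((n + 1 : ℕ) : ℝ) / N := by
        simp only [smul_eq_mul]; push_cast; ring
      rw [e] at h1
      simp only [smul_eq_mul] at h1
      linarith
    · rw [Real.exp_le_exp, neg_le_neg_iff]
      refine hm (hin n) (hin (n + 1)) (div_le_div_of_nonneg_right ?_ (Nat.cast_nonneg _))
      push_cast; linarith
  · intro t j hj
    have h1 : Tendsto (fun N : ℕ => (j N : ℝ) / N) atTop (𝓝[Ici 0] (t : ℝ)) :=
      tendsto_nhdsWithin_iff.2 ⟨hj, Eventually.of_forall fun N =>
        mem_Ici.2 (div_nonneg (Nat.cast_nonneg _) (Nat.cast_nonneg _))⟩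
    exact (Real.continuous_exp.tendsto _).comp (((hcont t t.2).tendsto.comp h1).neg)
  · have h1 : Continuous fun t : ℝ≥0 => R t :=
      hcont.comp_continuous NNReal.continuous_coe fun t => t.2
    have h2 := (Real.continuous_exp.comp h1.neg).tendsto 0
    simpa [h0, Function.comp_def] using h2

end Pool.Agent.Lib.MP_0f714a_pr
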