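import Pool.Agent.Lib.MP_0f714a_pr.Iz.Defs

/-!
The discrete inequalities hold on fine grids.
-/

open MeasureTheory Filter Topology Set
open scoped NNReal

namespace Pool.Agent.Lib.MP_0f714a_pr

universe u

theorem num {τ δ κ a s s0 : ℝ} (hτ : 0 < τ) (h : Par τ δ κ a s s0) :
    ∀ᶠ N : ℕ in atTop, ∀ m : ℕ, (m : ℝ) ≤ δ * N →
      Nums ⌊τ * N⌋₊ m (xx a N) (ww s N) (Real.exp (s0 / N)) (xx a N * κ / (N : ℝ) ^ 2)
        (Real.exp (a * δ)) (Real.exp ((a + s0) * δ)) := by
  have ha := h.a_pos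
  have hs0 := h.s0_pos
  have has := h.a_lt
  have hs : 0 < s := ha.trans has
  have hA := exp_lim s0
  have hB := xx_lim a
  have hf := floor_lim hτ.le
  have hx : Tendsto (fun N : ℕ => xx a N) atTop (𝓝 1) := by
    have h1 := (Real.continuous_exp.tendsto _).comp
      (tendsto_const_div_atTop_nhds_zero_nat a).neg
    simpa [xx, Function.comp_def] using h1
  have hX : Tendsto (fun N : ℕ => xx a N ^ ⌊τ * N⌋₊) atTop (𝓝 (Real.exp (-(a * τ)))) := by
    refine ((Real.continuous_exp.tendsto _).comp (hf.const_mul a).neg).congr fun N => ?_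
    simp only [xx, Function.comp, ← Real.exp_nat_mul]
    congr 1; ring
  have hW : Tendsto (fun N : ℕ => ww s N ^ ⌊τ * N⌋₊) atTop (𝓝 (Real.exp (-(s * τ)))) :=
    pow_tendsto s _ τ hf
  have l1 : Real.exp ((a + s0) * δ) * (s0 + a) * (s - a) * Real.exp (-(a * τ)) <
      a * s * (Real.exp (-(a * τ)) - Real.exp (-(s * τ))) := by
    have h1 := mul_lt_mul_of_pos_right h.i (Real.exp_pos (-(a * τ)))
    have h2 : Real.exp (-((s - a) * τ)) * Real.exp (-(a * τ)) = Real.exp (-(s * τ)) := by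
      rw [← Real.exp_add]; congr 1; ring
    rw [add_comm s0 a, ← h2]
    linarith
  have e1 := ((((hA.add hB).const_mul (Real.exp ((a + s0) * δ))).mul (hB.const_sub s)).mul
    hX).eventually_lt ((hB.mul_const s).mul (hX.sub hW)) l1
  have l2 : a * s * (s0 + a) * δ * Real.exp (a * δ) < (s0 + a) ^ 2 - s0 * (s0 + a + s) := by
    have := h.ii
    rw [add_comm s0 a]
    linarith
  have e2 := ((((hB.mul_const s).mul (hA.add hB)).mul_const δ).mul_const
    (Real.exp (a * δ))).eventually_lt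
    (((hA.add hB).pow 2).sub (hA.mul ((hA.add hB).add_const s))) l2
  have e3 := ((hB.mul_const s).mul_const (Real.exp (a * δ))).eventually_lt (hx.mul_const κ)
    (by simpa using h.iii)
  have e4 := tendsto_natCast_atTop_atTop (R := ℝ) |>.eventually_ge_atTop s
  have e5 := tendsto_natCast_atTop_atTop (R := ℝ) |>.eventually_ge_atTop τ⁻¹
  filter_upwards [e1, e2, e3, e4, e5] with N k1 k2 k3 k4 k5 m hm
  have hN : (0 : ℝ) < N := hs.trans_le k4
  have hN2 : (0 : ℝ) < (N : ℝ) ^ 2 := by positivity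
  have hx1 : xx a N ≤ 1 := Real.exp_le_one_iff.2 (neg_nonpos.2 (div_nonneg ha.le hN.le))
  have hρ1 : 1 ≤ Real.exp (s0 / N) := Real.one_le_exp (div_nonneg hs0.le hN.le)
  have hw : (N : ℝ) * (1 - ww s N) = s := by simp only [ww]; field_simp; ring
  have hmN : (m : ℝ) / N ≤ δ := by rwa [div_le_iff₀ hN]
  have hxm : xx a N ^ m = Real.exp (-(a * (m / N))) := by
    simp only [xx, ← Real.exp_nat_mul]
    congr 1; ring
  refine ⟨?_, ?_, ?_, hx1, ?_, ?_, ?_, ?_, ?_⟩
  · refine Nat.le_floor ?_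
    have := mul_le_mul_of_nonneg_left k5 hτ.le
    rwa [mul_inv_cancel₀ hτ.ne', ← Nat.cast_one] at this
  · simp only [ww]
    rwa [sub_nonneg, div_le_one hN]
  · have h1 := Real.add_one_le_exp (-(a / N))
    have h2 := div_lt_div_of_pos_right has hN
    simp only [ww, xx]
    linarith
  · rw [hxm, ← Real.exp_add]
    refine Real.one_le_exp ?_
    have := mul_le_mul_of_nonneg_left hmN ha.le
    linarith
  · rw [hxm, ← Real.exp_add, ← Real.exp_nat_mul, Real.exp_le_exp]
    have h1 := mul_le_mul_of_nonneg_left hmN (add_pos ha hs0).le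
    have h2 : (m : ℝ) * (s0 / N) = s0 * (m / N) := by ring
    linarith
  · refine le_of_mul_le_mul_right ?_ hN2
    generalize ww s N = w at hw k1 ⊢
    rw [← hw] at k1
    refine le_trans (le_of_eq ?_) (k1.le.trans (le_of_eq ?_)) <;> ring
  · refine le_of_mul_le_mul_right ?_ hN2
    have hw1 : 0 ≤ 1 - ww s N := by
      have : 0 ≤ s / N := div_nonneg hs.le hN.le
      simp only [ww]; linarith
    have h1 : (1 - xx a N) * (1 - ww s N) * (Real.exp (s0 / N) - xx a N) * m *
        Real.exp (a * δ) ≤ (1 - xx a N) * (1 - ww s N) * (Real.exp (s0 / N) - xx a N) * (δ * N) *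
        Real.exp (a * δ) := by
      have : 0 ≤ 1 - xx a N := by linarith
      have : 0 ≤ Real.exp (s0 / N) - xx a N := by linarith
      gcongr
    refine (mul_le_mul_of_nonneg_right h1 hN2.le).trans ?_
    generalize ww s N = w at hw k2 ⊢
    rw [← hw] at k2
    refine le_trans (le_of_eq ?_) (k2.le.trans (le_of_eq ?_)) <;> ring
  · rw [le_div_iff₀ hN2]
    generalize ww s N = w at hw k3 ⊢
    rw [← hw] at k3
    refine le_trans (le_of_eq ?_) k3.le
    ring

end Pool.Agent.Lib.MP_0f714a_pr
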