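import Pool.Agent.Lib.MP_0f714a_pr.Iz.Defs

/-!
Choice of the parameters.
-/

open MeasureTheory Filter Topology Set
open scoped NNReal

namespace Pool.Agent.Lib.MP_0f714a_pr

universe u

lemma param_exp {z : ℝ} (h0 : 0 ≤ z) (h1 : z ≤ 1 / 2) : Real.exp z ≤ 1 + 2 * z := by
  have h2 := Real.add_one_le_exp (-z)
  have h3 : Real.exp z * Real.exp (-z) = 1 := by rw [← Real.exp_add]; simp
  have h4 := Real.exp_pos z
  have h5 : Real.exp z * (1 - z) ≤ 1 := by nlinarith
  by_contra h6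
  have h7 : (1 + 2 * z) * (1 - z) < Real.exp z * (1 - z) :=
    mul_lt_mul_of_pos_right (not_le.1 h6) (by linarith)
  nlinarith

lemma param_core {τ δ κ lam s : ℝ} (hl : 0 < lam) (hδ : 0 < δ) (hs : 2 * lam ≤ s)
    (hsδ : s * δ ≤ 1 / 100) (hκ : lam ≤ 3 * δ * κ)
    (hε : ∀ a, a ≤ lam → s * Real.exp (-((s - a) * τ)) ≤ 2 / 5 * lam) :
    ∃ a s0 : ℝ, a + s0 = lam ∧ Par τ δ κ a s s0 := by
  have hs0 : 0 < s := by linarith
  set s0 := lam ^ 2 / (16 * (lam + s)) with hs0d
  have h1 : s0 * (lam + s) = lam ^ 2 / 16 := by rw [hs0d]; field_simp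
  have h2 : 0 < s0 := by positivity
  have h3 : s0 ≤ lam / 16 := by
    have : s0 * lam ≤ lam / 16 * lam := by nlinarith
    exact le_of_mul_le_mul_right this hl
  set a := lam - s0 with ha
  have ha1 : 15 / 16 * lam ≤ a := by linarith
  have ha2 : a ≤ lam := by linarith
  have ha0 : 0 < a := by linarith
  have hlδ : lam * δ ≤ 1 / 200 := by nlinarith
  have haδ : a * δ ≤ 1 / 200 := by nlinarith
  have e1 := param_exp (z := lam * δ) (by positivity) (by linarith)
  have e2 : Real.exp (a * δ) ≤ 101 / 100 := by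
    have := param_exp (z := a * δ) (by positivity) (by linarith)
    linarith
  have e3 := hε a ha2
  have hsum : a + s0 = lam := by ring
  refine ⟨a, s0, hsum, ha0, h2, by linarith, ?_, ?_, ?_⟩
  · rw [hsum]
    have k1 : Real.exp (lam * δ) * lam * (s - a) ≤ (1 + 2 * (lam * δ)) * lam * (s - a) := by
      have : 0 ≤ s - a := by linarith
      gcongr
    have k2 : 2 * (lam * δ) * lam * (s - a) ≤ lam ^ 2 / 50 := by
      have k3 : δ * (s - a) ≤ 1 / 100 := by nlinarith
      have := mul_le_mul_of_nonneg_left k3 (show 0 ≤ 2 * lam ^ 2 by positivity)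
      nlinarith
    have k4 := mul_le_mul_of_nonneg_left e3 ha0.le
    have k5 : s0 * s ≤ lam ^ 2 / 16 := by nlinarith
    have k6 : a * s = lam * s - s0 * s := by rw [ha]; ring
    have k7 : 15 / 16 * lam * lam ≤ a * lam := mul_le_mul_of_nonneg_right ha1 hl.le
    have k8 : 0 < lam * lam := mul_pos hl hl
    nlinarith
  · rw [hsum, h1]
    have k1 : a * s * lam * δ * Real.exp (a * δ) ≤ lam * lam * (1 / 100) * (101 / 100) := by
      rw [show a * s * lam * δ = a * lam * (s * δ) by ring]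
      gcongr
    have k8 : 0 < lam * lam := mul_pos hl hl
    nlinarith
  · have k1 : a * (s * δ) * Real.exp (a * δ) ≤ lam * (1 / 100) * (101 / 100) := by gcongr
    refine lt_of_mul_lt_mul_right ?_ hδ.le
    nlinarith

theorem param {x1 L M : ℝ} (hx : 0 < x1) (hL : 0 < L) (hM : 0 < M) :
    ∃ J : ℕ, 1 ≤ J ∧ ∀ τ lam κ : ℝ, x1 ≤ τ → M / (2 * J) ≤ lam → lam ≤ M →
      lam * J ≤ 3 * L * κ → ∃ a s s0 : ℝ, a + s0 = lam ∧ Par τ (L / J) κ a s s0 := by
  have h1 := (Real.tendsto_pow_mul_exp_neg_atTop_nhds_zero 3).comp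
    (tendsto_natCast_atTop_atTop.const_mul_atTop hx)
  have h2 := h1.eventually (gt_mem_nhds
    (show 0 < x1 ^ 3 * (M / 5 * Real.exp (-(M * x1))) by positivity))
  have h3 := tendsto_natCast_atTop_atTop (R := ℝ) |>.eventually_ge_atTop (100 * L)
  have h4 := tendsto_natCast_atTop_atTop (R := ℝ) |>.eventually_ge_atTop (2 * M)
  obtain ⟨K, ⟨⟨k2, k3⟩, k4⟩, k1⟩ := (((h2.and h3).and h4).and (eventually_ge_atTop 1)).exists
  have hK : (0 : ℝ) < K := by exact_mod_cast k1
  refine ⟨K ^ 2, Nat.one_le_pow _ _ k1, fun τ lam κ hτ hl1 hl2 hκ => ?_⟩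
  push_cast at hl1 hκ ⊢
  have hl0 : 0 < lam := lt_of_lt_of_le (by positivity) hl1
  have k5 : (K : ℝ) ^ 3 * Real.exp (-(x1 * K)) < M / 5 * Real.exp (-(M * x1)) := by
    simp only [Function.comp, mul_pow, mul_assoc] at k2
    exact lt_of_mul_lt_mul_left k2 (by positivity)
  obtain ⟨a, s0, h5, h6⟩ := param_core (τ := τ) (δ := L / (K : ℝ) ^ 2) (κ := κ) (s := K) hl0
    (by positivity) (by linarith) (by
      rw [show (K : ℝ) * (L / (K : ℝ) ^ 2) = L / K by field_simp, div_le_iff₀ hK]; linarith)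
    (by
      rw [show 3 * (L / (K : ℝ) ^ 2) * κ = 3 * L * κ / (K : ℝ) ^ 2 by ring,
        le_div_iff₀ (by positivity)]
      exact hκ)
    (by
      intro a ha
      have e1 : Real.exp (-((K - a) * τ)) ≤ Real.exp (-(x1 * K)) * Real.exp (M * x1) := by
        rw [← Real.exp_add, Real.exp_le_exp]
        have e2 : (K - M) * x1 ≤ (K - a) * τ :=
          mul_le_mul (by linarith) hτ hx.le (by linarith)
        linarith
      have e3 : Real.exp (-(M * x1)) * Real.exp (M * x1) = 1 := by rw [← Real.exp_add]; simp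
      have e4 := mul_lt_mul_of_pos_right k5 (Real.exp_pos (M * x1))
      rw [mul_assoc (M / 5), e3, mul_one, mul_assoc] at e4
      have e5 := mul_le_mul_of_nonneg_left e1 (show 0 ≤ (K : ℝ) ^ 3 by positivity)
      rw [div_le_iff₀ (by positivity)] at hl1
      refine le_of_mul_le_mul_right ?_ (show 0 < (K : ℝ) ^ 2 by positivity)
      nlinarith)
  exact ⟨a, K, s0, h5, h6⟩

end Pool.Agent.Lib.MP_0f714a_pr
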