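import Pool.Agent.Lib.MP_0f714a_pr.Iz.Defs

/-!
Choice of a short interval on which the slope drops at a definite rate.
-/

open MeasureTheory Filter Topology Set
open scoped NNReal

namespace Pool.Agent.Lib.MP_0f714a_pr

universe u

lemma pick_D {φ : ℝ → ℝ} (hc : ConcaveOn ℝ (Ici 0) φ) :
    ∃ D : ℝ → ℝ, (∀ x y, 0 < x → x ≤ y → φ y - φ x ≤ D x * (y - x)) ∧
      (∀ w x, 0 ≤ w → w ≤ x → 0 < x → D x * (x - w) ≤ φ x - φ w) := by
  have hub : ∀ w x, 0 ≤ w → w < x →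
      (φ x - φ w) / (x - w) ∈ upperBounds ((fun y => (φ y - φ x) / (y - x)) '' Ioi x) := by
    rintro w x hw hwx _ ⟨y, hy, rfl⟩
    have hy' : x < y := hy
    exact hc.slope_anti_adjacent (mem_Ici.2 hw) (mem_Ici.2 (by linarith)) hwx hy'
  refine ⟨fun x => sSup ((fun y => (φ y - φ x) / (y - x)) '' Ioi x), fun x y hx hxy => ?_,
    fun w x hw hwx hx => ?_⟩
  · rcases hxy.eq_or_lt with rfl | h
    · simp
    · rw [← div_le_iff₀ (sub_pos.2 h)]
      exact le_csSup ⟨_, hub 0 x le_rfl hx⟩ ⟨y, h, rfl⟩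
  · rcases hwx.eq_or_lt with rfl | h
    · simp
    · rw [← le_div_iff₀ (sub_pos.2 h)]
      exact csSup_le ⟨_, x + 1, mem_Ioi.2 (by linarith), rfl⟩ (hub w x hw h)

lemma pick_core {φ D : ℝ → ℝ} (hcont : ContinuousOn φ (Ici 0))
    (D1 : ∀ x y, 0 < x → x ≤ y → φ y - φ x ≤ D x * (y - x))
    (D2 : ∀ w x, 0 ≤ w → w ≤ x → 0 < x → D x * (x - w) ≤ φ x - φ w)
    (D3 : ∀ x y, 0 < x → x ≤ y → D y ≤ D x) {t0 T κ : ℝ} (ht0 : 0 < t0) (hT : t0 ≤ T)
    (hκ : 0 ≤ κ) :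
    ∃ τ α, Picked φ τ T α (D T) κ ∧ t0 ≤ τ ∧ D t0 - κ * (T - t0) ≤ α ∧ α ≤ D t0 := by
  set A := (fun t => D t + κ * t) '' Icc t0 T with hA
  have hne : A.Nonempty := ⟨_, t0, ⟨le_rfl, hT⟩, rfl⟩
  have hbd : BddAbove A := by
    refine ⟨D t0 + κ * T, ?_⟩
    rintro _ ⟨t, ht, rfl⟩
    exact add_le_add (D3 _ _ ht0 ht.1) (mul_le_mul_of_nonneg_left ht.2 hκ)
  obtain ⟨z, -, hz, hzA⟩ := exists_seq_tendsto_sSup hne hbd
  choose v hv hvz using hzA
  obtain ⟨τ, hτ, σ, hσ, hlim⟩ := isCompact_Icc.tendsto_subseq hv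
  set α := sSup A - κ * τ with hα
  have hD : Tendsto (fun n => D (v (σ n))) atTop (𝓝 α) := by
    have h1 := (hz.comp hσ.tendsto_atTop).sub (hlim.const_mul κ)
    refine h1.congr fun n => ?_
    simp only [Function.comp, ← hvz]
    ring
  have hS : ∀ t ∈ Icc t0 T, D t + κ * t ≤ sSup A := fun t ht => le_csSup hbd ⟨t, ht, rfl⟩
  have hτ0 : 0 < τ := ht0.trans_le hτ.1
  have hv0 : ∀ n, 0 < v n := fun n => ht0.trans_le (hv n).1
  refine ⟨τ, α, ⟨hτ0, hτ.2, hκ, ?_, ?_, ?_, ?_⟩, hτ.1, ?_, ?_⟩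
  · intro x y hx hxy hy
    rcases hxy.eq_or_lt with rfl | hlt
    · simp
    rcases hy.eq_or_lt with rfl | hy'
    · have h1 : Tendsto (fun n => v (σ n)) atTop (𝓝[Ici 0] y) :=
        tendsto_nhdsWithin_iff.2 ⟨hlim, Eventually.of_forall fun n => mem_Ici.2 (hv0 _).le⟩
      have h2 := ((hcont y (mem_Ici.2 hτ0.le)).tendsto.comp h1).sub_const (φ x)
      refine le_of_tendsto_of_tendsto (hD.mul (hlim.sub_const x)) h2 ?_
      filter_upwards [hlim.eventually (lt_mem_nhds hlt)] with n hn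
      exact D2 x _ hx (le_of_lt hn) (hv0 _)
    · have hy0 : 0 < y := hx.trans_lt hlt
      have h1 : α ≤ D y := by
        refine le_of_tendsto hD ?_
        filter_upwards [hlim.eventually (lt_mem_nhds hy')] with n hn
        exact D3 _ _ hy0 (le_of_lt hn)
      exact (mul_le_mul_of_nonneg_right h1 (sub_nonneg.2 hxy)).trans (D2 x y hx hxy hy0)
  · intro x y hx hxy hy
    have h1 := hS x ⟨hτ.1.trans hx, hxy.trans hy⟩
    refine (D1 x y (hτ0.trans_le hx) hxy).trans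
      (mul_le_mul_of_nonneg_right ?_ (sub_nonneg.2 hxy))
    rw [hα]; linarith
  · intro x y hx hxy hy
    rcases hxy.eq_or_lt with rfl | hlt
    · simp
    have hy0 : 0 < y := hx.trans_lt hlt
    exact (mul_le_mul_of_nonneg_right (D3 _ _ hy0 hy) (sub_nonneg.2 hxy)).trans
      (D2 x y hx hxy hy0)
  · intro x y hx hxy
    have hT0 : 0 < T := ht0.trans_le hT
    exact (D1 x y (hT0.trans_le hx) hxy).trans
      (mul_le_mul_of_nonneg_right (D3 _ _ hT0 hx) (sub_nonneg.2 hxy))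
  · have h1 := hS t0 ⟨le_rfl, hT⟩
    have h2 := mul_le_mul_of_nonneg_left hτ.2 hκ
    rw [hα]; linarith
  · exact le_of_tendsto hD (Eventually.of_forall fun n => D3 _ _ ht0 (hv _).1)

theorem pick {φ : ℝ → ℝ} (hc : ConcaveOn ℝ (Ici 0) φ) (hcont : ContinuousOn φ (Ici 0))
    (h0 : φ 0 = 0) (hnl : ¬ ∃ l : ℝ, ∀ t, 0 ≤ t → φ t = l * t) :
    ∃ x1 L M : ℝ, 0 < x1 ∧ 0 < L ∧ 0 < M ∧ ∀ J : ℕ, 1 ≤ J → ∃ τ T α β κ : ℝ,
      Picked φ τ T α β κ ∧ x1 ≤ τ ∧ T - τ ≤ L / J ∧ M / (2 * J) ≤ α - β ∧ α - β ≤ M ∧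
        (α - β) * J ≤ 3 * L * κ := by
  obtain ⟨D, D1, D2⟩ := pick_D hc
  have D3 : ∀ x y, 0 < x → x ≤ y → D y ≤ D x := by
    intro x y hx hxy
    rcases hxy.eq_or_lt with rfl | h
    · exact le_rfl
    · exact le_of_mul_le_mul_right
        ((D2 x y hx.le hxy (hx.trans h)).trans (D1 x y hx hxy)) (sub_pos.2 h)
  obtain ⟨x1, x2, hx1, hx12, hD⟩ : ∃ x1 x2, 0 < x1 ∧ x1 < x2 ∧ D x2 < D x1 := by
    by_contra hno
    push Not at hno
    have hconst : ∀ x, 0 < x → D x = D 1 := by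
      intro x hx
      rcases lt_trichotomy x 1 with h | h | h
      · exact le_antisymm (hno x 1 hx h) (D3 x 1 hx h.le)
      · rw [h]
      · exact le_antisymm (D3 1 x one_pos h.le) (hno 1 x one_pos h)
    refine hnl ⟨D 1, fun t ht => ?_⟩
    rcases ht.eq_or_lt with rfl | ht'
    · simp [h0]
    refine le_antisymm ?_ ?_
    · have h1 : Tendsto (fun x => φ t - φ x) (𝓝[>] 0) (𝓝 (φ t - φ 0)) :=
        ((hcont 0 (mem_Ici.2 le_rfl)).tendsto.mono_left
          (nhdsWithin_mono _ Ioi_subset_Ici_self)).const_sub _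
      have h2 : Tendsto (fun x => D 1 * (t - x)) (𝓝[>] 0) (𝓝 (D 1 * (t - 0))) := by
        have : Continuous fun x : ℝ => D 1 * (t - x) := by fun_prop
        exact (this.tendsto 0).mono_left nhdsWithin_le_nhds
      have h3 := le_of_tendsto_of_tendsto h1 h2 (by
        filter_upwards [Ioo_mem_nhdsGT ht'] with x hx
        rw [← hconst x hx.1]
        exact D1 x t hx.1 hx.2.le)
      simpa [h0] using h3
    · have h1 := D2 0 t le_rfl ht ht'
      rw [hconst t ht'] at h1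
      simpa [h0] using h1
  refine ⟨x1, x2 - x1, D x1 - D x2, hx1, by linarith, by linarith, fun J hJ => ?_⟩
  have hJ0 : (0 : ℝ) < J := by exact_mod_cast hJ
  set δ := (x2 - x1) / J with hδ
  have hδ0 : 0 < δ := div_pos (by linarith) hJ0
  have hδJ : δ * J = x2 - x1 := by rw [hδ]; field_simp
  obtain ⟨i, hi, hdrop⟩ : ∃ i ∈ Finset.range J,
      (D x1 - D x2) / J ≤ D (x1 + i * δ) - D (x1 + ((i + 1 : ℕ) : ℝ) * δ) := by
    refine Finset.exists_le_of_sum_le ⟨0, Finset.mem_range.2 hJ⟩ (le_of_eq ?_)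
    rw [Finset.sum_range_sub' (fun i : ℕ => D (x1 + i * δ)), Finset.sum_const, Finset.card_range,
      nsmul_eq_mul, show x1 + J * δ = x2 by linarith]
    simp only [Nat.cast_zero, zero_mul, add_zero]
    field_simp
  set t0 := x1 + i * δ with ht0
  set T := x1 + ((i + 1 : ℕ) : ℝ) * δ with hT
  have hTt : T - t0 = δ := by rw [hT, ht0]; push_cast; ring
  have h1 : x1 ≤ t0 := by
    have : 0 ≤ i * δ := by positivity
    linarith
  have h2 : T ≤ x2 := by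
    have h3 : ((i + 1 : ℕ) : ℝ) ≤ J := by exact_mod_cast Finset.mem_range.1 hi
    have := mul_le_mul_of_nonneg_right h3 hδ0.le
    linarith
  have ht00 : 0 < t0 := hx1.trans_le h1
  have hμ : 0 ≤ D t0 - D T := sub_nonneg.2 (D3 _ _ ht00 (by linarith))
  obtain ⟨τ, α, hp, h4, h5, h6⟩ := pick_core hcont D1 D2 D3 (κ := (D t0 - D T) / (2 * δ)) ht00
    (show t0 ≤ T by linarith) (by positivity)
  have h7 : (D t0 - D T) / (2 * δ) * (T - t0) = (D t0 - D T) / 2 := by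
    rw [hTt]; field_simp
  refine ⟨τ, T, α, D T, _, hp, h1.trans h4, by linarith, ?_, ?_, ?_⟩
  · have : (D x1 - D x2) / (2 * J) = (D x1 - D x2) / J / 2 := by field_simp
    linarith
  · have := D3 _ _ hx1 h1
    have := D3 T x2 (by linarith) h2
    linarith
  · have h8 : 3 * (x2 - x1) * ((D t0 - D T) / (2 * δ)) = 3 / 2 * ((D t0 - D T) * J) := by
      rw [← hδJ]; field_simp
    have h9 : (α - D T) * J ≤ (D t0 - D T) * J := mul_le_mul_of_nonneg_right (by linarith) hJ0.le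
    have h10 : 0 ≤ (D t0 - D T) * J := mul_nonneg hμ hJ0.le
    linarith

end Pool.Agent.Lib.MP_0f714a_pr
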