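import Pool.Agent.Lib.MP_0f714a_pr.Iz.Defs

/-!
The discrete sequence has the required shape.
-/

open MeasureTheory Filter Topology Set
open scoped NNReal

namespace Pool.Agent.Lib.MP_0f714a_pr

universe u

lemma ratio_sq {a b c r r' : ℝ} (h1 : b = r * a) (h2 : c = r' * b) (h : r ≤ r') (ha : 0 < a)
    (hb : 0 < b) : b ^ 2 ≤ a * c := by
  have := mul_le_mul_of_nonneg_right h (mul_pos ha hb).le
  calc b ^ 2 = b * b := sq b
    _ = r * (a * b) := by rw [← mul_assoc, ← h1]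
    _ ≤ r' * (a * b) := this
    _ = a * c := by rw [h2]; ring

theorem ratio {φ : ℝ → ℝ} {τ T α β κ a s s0 : ℝ} (hc : ConcaveOn ℝ (Ici 0) φ)
    (hp : Picked φ τ T α β κ) (hl : a + s0 = α - β) (ha : 0 < a) (hs : 0 < s) (hs0 : 0 < s0)
    {N : ℕ} (hN : 1 ≤ N) :
    Shape (vv φ τ T α a s s0 N) ⌊τ * N⌋₊ (nn τ T N) (xx a N) (xx a N + ww s N - 1)
      (Real.exp (s0 / N)) (xx a N * κ / (N : ℝ) ^ 2) := by
  have hN0 : (0 : ℝ) < N := by exact_mod_cast hN
  set n0 := ⌊τ * N⌋₊ with hn0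
  set m := ⌊(T - τ) * N⌋₊ with hm
  have hnn : nn τ T N = n0 + m := rfl
  have hmT : (m : ℝ) ≤ (T - τ) * N :=
    Nat.floor_le (mul_nonneg (sub_nonneg.2 hp.τ_le) hN0.le)
  set x := xx a N with hx
  set y := x + ww s N - 1 with hy
  set c := cc a s s0 N with hcc
  set v := vv φ τ T α a s s0 N with hv
  have hx0 : 0 < x := Real.exp_pos _
  have hx1 : x ≤ 1 := Real.exp_le_one_iff.2 (neg_nonpos.2 (div_nonneg ha.le hN0.le))
  have hy1 : 0 < 1 - y := by
    have : 0 < s / N := div_pos hs hN0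
    simp only [hy, ww]; linarith
  have hc1 : c * (1 - y) = Real.exp (s0 / N) - 1 := by
    rw [hcc, cc, ← hx, ← hy]; field_simp
  let ω : ℕ → ℝ := fun d => φ (τ + d / N) - φ τ - α * (d / N)
  have hω : ∀ d : ℕ, om φ τ α ((d : ℝ) / N) = ω d := fun d => by
    simp only [om, ω, max_eq_left (div_nonneg (Nat.cast_nonneg d) hN0.le)]
  have hω0 : ω 0 = 0 := by simp [ω]
  have v1 : ∀ n, n ≤ n0 + m → v n = Real.exp (-(a * ((n : ℝ) / N)) - ω (n - n0)) := by
    intro n hn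
    simp only [hv, vv, hnn, ← hn0, min_eq_left hn, Nat.sub_eq_zero_of_le hn, hω, pow_zero,
      mul_one, add_sub_cancel_right]
  have v2 : ∀ j, v (n0 + m + j) = v (n0 + m) * (1 + c - c * y ^ j) := by
    intro j
    rw [v1 _ le_rfl]
    simp only [hv, vv, hnn, ← hn0, min_eq_right (Nat.le_add_right (n0 + m) j),
      Nat.add_sub_cancel_left, hω]
    rfl
  have vpos : ∀ n, n ≤ n0 + m → 0 < v n := fun n hn => by rw [v1 n hn]; exact Real.exp_pos _
  have S1 : ∀ n, n < n0 → v (n + 1) = x * v n := by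
    intro n hn
    rw [v1 _ (by omega), v1 _ (by omega), Nat.sub_eq_zero_of_le (by omega),
      Nat.sub_eq_zero_of_le (by omega), hx, xx, ← Real.exp_add]
    congr 1
    push_cast; ring
  have S2 : ∀ d, d < m → v (n0 + d + 1) = x * Real.exp (ω d - ω (d + 1)) * v (n0 + d) := by
    intro d hd
    rw [v1 _ (by omega), v1 _ (by omega), show n0 + d + 1 - n0 = d + 1 by omega,
      Nat.add_sub_cancel_left, hx, xx, ← Real.exp_add, ← Real.exp_add]
    congr 1
    push_cast; ring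
  have S3 : v (n0 + m + 1) = Real.exp (s0 / N) * v (n0 + m) := by
    rw [v2 1, pow_one, mul_comm]
    congr 1
    linarith
  have hpt : ∀ d : ℕ, τ ≤ τ + (d : ℝ) / N := fun d =>
    le_add_of_nonneg_right (div_nonneg (Nat.cast_nonneg d) hN0.le)
  have hst : ∀ d : ℕ, τ + ((d + 1 : ℕ) : ℝ) / N = τ + (d : ℝ) / N + 1 / N := fun d => by
    push_cast; ring
  have hN1 : (0 : ℝ) < 1 / N := by positivity
  have hle : ∀ d : ℕ, d < m → τ + ((d + 1 : ℕ) : ℝ) / N ≤ T := fun d hd => by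
    have h1 : ((d + 1 : ℕ) : ℝ) ≤ m := by exact_mod_cast hd
    have h2 : ((d + 1 : ℕ) : ℝ) / N ≤ T - τ := by rw [div_le_iff₀ hN0]; linarith
    linarith
  have hdiff : ∀ d : ℕ, ω d - ω (d + 1) =
      α * (1 / N) - (φ (τ + ((d + 1 : ℕ) : ℝ) / N) - φ (τ + (d : ℝ) / N)) := fun d => by
    simp only [ω]; push_cast; ring
  have L1 : ∀ d : ℕ, d < m → κ / (N : ℝ) ^ 2 * d ≤ ω d - ω (d + 1) := by
    intro d hd
    have h1 := hp.mid _ _ (hpt d) (by rw [hst]; linarith) (hle d hd)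
    rw [hdiff]
    have e : (α - κ * (τ + (d : ℝ) / N - τ)) * (τ + ((d + 1 : ℕ) : ℝ) / N - (τ + (d : ℝ) / N)) =
        α * (1 / N) - κ / (N : ℝ) ^ 2 * d := by
      push_cast; field_simp; ring
    linarith
  have L2 : ∀ d : ℕ, d < m → ω d - ω (d + 1) ≤ (a + s0) / N := by
    intro d hd
    have h1 := hp.all _ _ (hp.τ_pos.le.trans (hpt d)) (by rw [hst]; linarith) (hle d hd)
    rw [hdiff, hl]
    have e : β * (τ + ((d + 1 : ℕ) : ℝ) / N - (τ + (d : ℝ) / N)) =
        α * (1 / N) - (α - β) / N := by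
      push_cast; field_simp; ring
    linarith
  have L3 : ∀ d : ℕ, ω d - ω (d + 1) ≤ ω (d + 1) - ω (d + 1 + 1) := by
    intro d
    have h1 := hc.2 (mem_Ici.2 (hp.τ_pos.le.trans (hpt d)))
      (mem_Ici.2 (hp.τ_pos.le.trans (hpt (d + 1 + 1)))) (show (0 : ℝ) ≤ 1 / 2 by norm_num)
      (show (0 : ℝ) ≤ 1 / 2 by norm_num) (by norm_num)
    have e : (1 / 2 : ℝ) • (τ + (d : ℝ) / N) + (1 / 2 : ℝ) • (τ + ((d + 1 + 1 : ℕ) : ℝ) / N) =
        τ + ((d + 1 : ℕ) : ℝ) / N := by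
      simp only [smul_eq_mul]; push_cast; ring
    rw [e] at h1
    simp only [smul_eq_mul] at h1
    rw [hdiff, hdiff]
    linarith
  have L0 : ∀ d : ℕ, d < m → 0 ≤ ω d - ω (d + 1) := fun d hd =>
    le_trans (by have := hp.κ_nonneg; positivity) (L1 d hd)
  have hρ1 : 1 ≤ Real.exp (s0 / N) := Real.one_le_exp (div_nonneg hs0.le hN0.le)
  rw [hnn]
  refine ⟨?_, vpos, Nat.le_add_right _ _, S1, ?_, ?_, S3, ?_⟩
  · rw [v1 0 (Nat.zero_le _)]; simp [hω0]
  · intro n hn
    have p1 := vpos n (by omega)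
    have p2 := vpos (n + 1) hn
    rcases lt_trichotomy (n + 1) n0 with h | h | h
    · exact ratio_sq (S1 n (by omega)) (S1 (n + 1) h) le_rfl p1 p2
    · rcases Nat.eq_zero_or_pos m with h2 | h2
      · have h3 := S3
        rw [h2, add_zero, ← h] at h3
        exact ratio_sq (S1 n (by omega)) h3 (hx1.trans hρ1) p1 p2
      · have h3 := S2 0 h2
        rw [add_zero, ← h] at h3
        exact ratio_sq (S1 n (by omega)) h3
          (le_mul_of_one_le_right hx0.le (Real.one_le_exp (L0 0 h2))) p1 p2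
    · obtain ⟨d, rfl⟩ : ∃ d, n = n0 + d := ⟨n - n0, by omega⟩
      have hd : d < m := by omega
      rcases (show d + 1 < m ∨ d + 1 = m by omega) with h2 | h2
      · exact ratio_sq (S2 d hd) (S2 (d + 1) h2)
          (mul_le_mul_of_nonneg_left (Real.exp_le_exp.2 (L3 d)) hx0.le) p1 p2
      · have h3 := S3
        rw [← h2] at h3
        refine ratio_sq (S2 d hd) h3 ?_ p1 p2
        rw [hx, xx, ← Real.exp_add, Real.exp_le_exp]
        have := L2 d hd
        rw [add_div] at this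
        linarith
  · intro n h1 h2
    obtain ⟨d, rfl⟩ := Nat.exists_eq_add_of_le h1
    have hd : d < m := by omega
    rw [S2 d hd]
    refine mul_le_mul_of_nonneg_right ?_ (vpos _ (by omega)).le
    have h3 := (Real.add_one_le_exp (ω d - ω (d + 1)))
    have h4 := L1 d hd
    have h5 := mul_le_mul_of_nonneg_left (show 1 + κ / (N : ℝ) ^ 2 * d ≤
      Real.exp (ω d - ω (d + 1)) by linarith) hx0.le
    refine le_trans (le_of_eq ?_) h5
    push_cast; ring
  · intro n hn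
    obtain ⟨j, rfl⟩ := Nat.exists_eq_add_of_le hn
    rw [add_assoc _ j 2, add_assoc _ j 1, v2, v2, v2]
    ring

end Pool.Agent.Lib.MP_0f714a_pr
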