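import Pool.Agent.Lib.MP_0f714a_pr.Iz.Defs

/-!
The power series criterion.
-/

open MeasureTheory Filter Topology Set
open scoped NNReal

namespace Pool.Agent.Lib.MP_0f714a_pr

universe u

open PowerSeries in
lemma ser_coeff_geo (w : ℝ) (g : ℕ → ℝ) (n : ℕ) :
    coeff n (X * (geo w * mk g)) = ∑ j ∈ Finset.range n, w ^ (n - 1 - j) * g j := by
  rcases n with _ | n
  · simp
  · rw [coeff_succ_X_mul, mul_comm, coeff_mul,
      Finset.Nat.sum_antidiagonal_eq_sum_range_succ
        (fun i j => coeff i (mk g) * coeff j (geo w))]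
    refine Finset.sum_congr rfl fun j _ => ?_
    simp [geo, mul_comm]

open PowerSeries in
lemma ser_NN_tail {A : ℝ⟦X⟧} {w : ℝ} (hw : 0 ≤ w) (n1 : ℕ) (h1 : ∀ n, n ≤ n1 → 0 ≤ coeff n A)
    (h2 : ∀ n, n1 ≤ n → coeff (n + 1) ((1 - C w * X) * A) = 0) : NN A := by
  intro n
  induction n with
  | zero => exact h1 0 (Nat.zero_le _)
  | succ n ih =>
    by_cases h : n + 1 ≤ n1
    · exact h1 _ h
    · have h3 := h2 n (by omega)
      rw [sub_mul, one_mul, map_sub, mul_assoc, coeff_C_mul, coeff_succ_X_mul] at h3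
      have := mul_nonneg hw ih
      linarith

open PowerSeries in
lemma ser_coeff_two (y : ℝ) (g : ℕ → ℝ) (n : ℕ) :
    coeff (n + 2) ((1 - X) * (1 - C y * X) * mk g) =
      (g (n + 2) - g (n + 1)) - y * (g (n + 1) - g n) := by
  have e : (1 - X) * (1 - C y * X) * mk g =
      mk g - X * mk g - C y * (X * mk g) + C y * (X * (X * mk g)) := by ring
  rw [e]
  simp only [map_add, map_sub, coeff_C_mul, coeff_succ_X_mul, coeff_mk]
  ring

open PowerSeries in
theorem ser (v : ℕ → ℝ) (n1 : ℕ) {x w : ℝ} (hw : 0 ≤ w) (hx0 : 0 ≤ x) (hx : x ≤ 1)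
    (h0 : v 0 = 1) (h1 : v 1 = x)
    (hA : ∀ n, n ≤ n1 → v (n + 1) - x * v n ≤
      (1 - x) * (1 - w) * ∑ j ∈ Finset.range n, w ^ (n - 1 - j) * v j)
    (hB : ∀ m, m ≤ n1 →
      (1 - x) * (1 - w) * ∑ i ∈ Finset.range m, w ^ (m - 1 - i) * (v (i + 1) - x * v i) ≤
        (v (m + 2) - x * v (m + 1)) - x * (v (m + 1) - x * v m))
    (htail : ∀ n, n1 ≤ n → v (n + 2) - v (n + 1) = (x + w - 1) * (v (n + 1) - v n)) :
    ∃ f, IsRenewal v f := by
  set b := (1 - x) * (1 - w) with hb
  set y := x + w - 1 with hy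
  let g : ℕ → ℝ := fun n => v (n + 1) - x * v n
  let g2 : ℕ → ℝ := fun n => g (n + 1) - x * g n
  have hg0 : g 0 = 0 := by simp [g, h0, h1]
  have eU : (1 - C x * X) * mk v = 1 + X * mk g := by
    ext n
    rw [sub_mul, one_mul, map_sub, mul_assoc, coeff_C_mul, map_add]
    rcases n with _ | n
    · simp [h0]
    · simp [coeff_succ_X_mul, coeff_one, g]
  have eg : (1 - C x * X) * mk g = X * mk g2 := by
    ext n
    rw [sub_mul, one_mul, map_sub, mul_assoc, coeff_C_mul]
    rcases n with _ | n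
    · simp [hg0]
    · simp [coeff_succ_X_mul, g2]
  have gw := geo_mul w
  have cb : (C b : ℝ⟦X⟧) = (1 - C x) * (1 - C w) := by rw [hb]; simp
  have cy : (C y : ℝ⟦X⟧) = C x + C w - 1 := by rw [hy]; simp
  have c8 : (C (1 - x) : ℝ⟦X⟧) = 1 - C x := by simp
  let G : ℝ⟦X⟧ := C b * (X * (geo w * mk v)) - mk g
  let W : ℝ⟦X⟧ := mk g2 - C b * (X * (geo w * mk g))
  have I1 : (1 - X) * (1 - C y * X) * mk v = (1 - C w * X) * (1 - X * G) := by
    simp only [G]
    rw [cb, cy]
    linear_combination (1 - C w * X) * eU + (1 - C x) * (1 - C w) * X * X * mk v * gw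
  have I2 : X * ((1 - C w * X) * W) = (1 - X) * (1 - C y * X) * mk g := by
    simp only [W]
    rw [cb, cy]
    linear_combination (-(1 - C w * X)) * eg - (1 - C x) * (1 - C w) * X * X * mk g * gw
  have hG : NN G := by
    refine ser_NN_tail hw n1 (fun n hn => ?_) (fun n hn => ?_)
    · simp only [G, map_sub, coeff_C_mul, ser_coeff_geo, coeff_mk]
      have := hA n hn
      simp only [g]
      linarith
    · have e : X * ((1 - C w * X) * G) = 1 - C w * X - (1 - X) * (1 - C y * X) * mk v := by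
        rw [I1]; ring
      have h3 := congrArg (coeff (n + 2)) e
      rw [coeff_succ_X_mul, map_sub, ser_coeff_two, htail n hn] at h3
      rw [h3]
      simp [coeff_one]
  have hW : NN W := by
    refine ser_NN_tail hw n1 (fun n hn => ?_) (fun n hn => ?_)
    · simp only [W, map_sub, coeff_C_mul, ser_coeff_geo, coeff_mk]
      have := hB n hn
      simp only [g2, g]
      linarith
    · have h3 := congrArg (coeff (n + 2)) I2
      rw [coeff_succ_X_mul, ser_coeff_two] at h3
      rw [h3]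
      have h4 := htail n hn
      have h5 := htail (n + 1) (by omega)
      simp only [g]
      linear_combination h5 - x * h4
  have hcc : constantCoeff (1 - X * G) ≠ 0 := by simp
  have hR1 : (1 - X * G) * (1 - X * G)⁻¹ = 1 := PowerSeries.mul_inv_cancel _ hcc
  set R1 := (1 - X * G)⁻¹
  have hR1n : NN R1 := NN_of_fix NN_one hG (by linear_combination hR1)
  have I3 : (1 - C x * X) * (1 - X * G) - X * (X * W) = (1 - X) * (1 - C y * X) * geo w := by
    simp only [G, W]
    rw [cb, cy]
    linear_combination (-(1 - C x) * (1 - C w) * X * X * geo w) * eU + X * eg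
      - (1 - C x * X) * gw
  have hmain : 1 - X * (C x + X * W * R1) = (1 - X) * (1 - C y * X) * geo w * R1 := by
    linear_combination R1 * I3 - (1 - C x * X) * hR1
  refine ⟨_, isRenewal_of_series (F := C x + X * W * R1)
    (R := R1 * (1 + C (1 - x) * (X * geo w))) ?_ ?_ ?_ ?_⟩
  · rw [hmain]
    linear_combination (geo w * R1) * I1 + (1 - X * G) * R1 * gw + hR1
  · exact (NN_C hx0).add ((NN_X.mul hW).mul hR1n)
  · exact hR1n.mul (NN_one.add ((NN_C (by linarith)).mul (NN_X.mul (NN_geo hw))))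
  · rw [hmain, c8, cy]
    linear_combination (-(1 - X) * R1) * gw

end Pool.Agent.Lib.MP_0f714a_pr
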