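import Pool.Agent.Lib.MP_0f714a_pr.Iz.Conc
import Pool.Agent.Lib.MP_0f714a_pr.Iz.Kal
import Pool.Agent.Lib.MP_0f714a_pr.Iz.Pick
import Pool.Agent.Lib.MP_0f714a_pr.Iz.Param
import Pool.Agent.Lib.MP_0f714a_pr.Iz.Ser
import Pool.Agent.Lib.MP_0f714a_pr.Iz.Disc
import Pool.Agent.Lib.MP_0f714a_pr.Iz.Ratio
import Pool.Agent.Lib.MP_0f714a_pr.Iz.Num
import Pool.Agent.Lib.MP_0f714a_pr.Iz.Conv
import Pool.Agent.Lib.MP_0f714a_pr.Iz.Cof

/-!
The class of standard p-functions all of whose factors are infinitely divisible.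
-/

open MeasureTheory Filter Topology Set
open scoped NNReal

namespace Pool.Agent.Lib.MP_0f714a_pr

universe u

theorem qq_standard {φ : ℝ → ℝ} {τ T α β κ δ a s s0 : ℝ} (hc : ConcaveOn ℝ (Ici 0) φ)
    (hcont : ContinuousOn φ (Ici 0)) (hp : Picked φ τ T α β κ) (hl : a + s0 = α - β)
    (hδ : T - τ ≤ δ) (h : Par τ δ κ a s s0) :
    IsStandard.{u} (fun t : ℝ≥0 => qq φ τ T α a s s0 t) := by
  have hs : 0 < s := h.a_pos.trans h.a_lt
  have hz : qq φ τ T α a s s0 0 = 1 := qq_zero φ α a s s0 hp.τ_pos.le hp.τ_le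
  refine ⟨isPFunction_of_approx _ (by simpa using hz) (vv φ τ T α a s s0) ?_ ?_, ?_⟩
  · filter_upwards [num hp.τ_pos h, eventually_ge_atTop 1] with N hN hN1
    have hsh := ratio hc hp hl h.a_pos hs h.s0_pos hN1
    have hm : ((nn τ T N - ⌊τ * N⌋₊ : ℕ) : ℝ) ≤ δ * N := by
      have e : nn τ T N - ⌊τ * N⌋₊ = ⌊(T - τ) * N⌋₊ := by simp [nn]
      rw [e]
      have h1 : 0 ≤ (T - τ) * N := mul_nonneg (sub_nonneg.2 hp.τ_le) (Nat.cast_nonneg _)
      exact (Nat.floor_le h1).trans (mul_le_mul_of_nonneg_right hδ (Nat.cast_nonneg _))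
    have hn := hN _ hm
    refine ser _ (nn τ T N) hn.w_nonneg (hn.w_nonneg.trans hn.w_lt.le) hn.x_le hsh.v0 ?_
      (discA hsh hn) (discB hsh hn) hsh.tail
    have := hsh.flat 0 hn.one_le
    rw [hsh.v0, mul_one] at this
    simpa using this
  · intro t j hj
    exact conv hcont hp.τ_pos.le hp.τ_le h.a_pos hs t j hj
  · have h1 : Continuous fun t : ℝ≥0 => qq φ τ T α a s s0 t :=
      (qq_cont T α a s s0 hcont hp.τ_pos.le).comp NNReal.continuous_coe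
    have h2 := h1.tendsto 0
    simpa [hz] using h2

theorem exp_of_all {p : ℝ≥0 → ℝ} (hp : IsStandard.{u} p)
    (h : ∀ q, IsFactor.{u} q p → IsInfDiv.{u} q) :
    ∃ lam : ℝ≥0, ∀ t : ℝ≥0, p t = Real.exp (-((lam : ℝ) * t)) := by
  have hone : IsStandard.{u} (fun t : ℝ≥0 => Real.exp (-(fun _ : ℝ => (0 : ℝ)) t)) :=
    kal (B := 0) (concaveOn_const 0 (convex_Ici 0)) continuousOn_const (fun _ _ => le_rfl) rfl
  have hi : IsInfDiv.{u} p := h p ⟨hp, _, hone, fun t => by simp⟩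
  obtain ⟨φ, hc, hcont, hm, h0, hφ⟩ := conc hp hi
  by_cases hl : ∃ l : ℝ, ∀ t, 0 ≤ t → φ t = l * t
  · obtain ⟨l, hl⟩ := hl
    have hl0 : 0 ≤ l := by
      have h1 := hm (show (0 : ℝ) ∈ Ici 0 from le_refl (0 : ℝ))
        (show (1 : ℝ) ∈ Ici 0 from zero_le_one' ℝ) zero_le_one
      rw [h0, hl 1 zero_le_one, mul_one] at h1
      exact h1
    refine ⟨⟨l, hl0⟩, fun t => ?_⟩
    rw [hφ t, hl t t.2]
    rfl
  · exfalso
    obtain ⟨x1, L, M, hx, hL, hM, hpick⟩ := pick hc hcont h0 hl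
    obtain ⟨J, hJ, hpar⟩ := param hx hL hM
    obtain ⟨τ, T, α, β, κ, hpk, h1, h2, h3, h4, h5⟩ := hpick J hJ
    obtain ⟨a, s, s0, hl', hP⟩ := hpar τ (α - β) κ h1 h3 h4 h5
    have hs : 0 < s := hP.a_pos.trans hP.a_lt
    have hT : 0 < T := hpk.τ_pos.trans_le hpk.τ_le
    have hq := qq_standard.{u} hc hcont hpk hl' h2 hP
    have hpos := qq_pos φ τ T α hP.a_pos hs hP.s0_pos
    have hr : IsStandard.{u}
        (fun t : ℝ≥0 => Real.exp (-(fun t : ℝ => φ t + Real.log (qq φ τ T α a s s0 t)) t)) := by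
      refine kal (B := -(a * T)) (cof_concave hc hpk hl' hP.a_pos hs hP.s0_pos) ?_
        (cof_lower hm h0 hpk hP.a_pos hs hP.s0_pos) ?_
      · exact hcont.add ((qq_cont T α a s s0 hcont hpk.τ_pos.le).log
          fun t => (hpos t).ne').continuousOn
      · simp [h0, qq_zero φ α a s s0 hpk.τ_pos.le hpk.τ_le]
    refine not_isInfDiv (q := fun t : ℝ≥0 => qq φ τ T α a s s0 t) ⟨T, hT.le⟩ (hpos _) ?_
      (h _ ⟨hq, _, hr, fun t => ?_⟩)
    · exact qq_lt φ τ α hT hP.a_pos hs hP.s0_pos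
    · simp only [neg_add, Real.exp_add, Real.exp_neg (Real.log _), Real.exp_log (hpos _)]
      rw [hφ t]
      have := (hpos t).ne'
      field_simp

theorem izero (p : ℝ≥0 → ℝ) (hp : IsStandard.{u} p) :
    (∀ q, IsFactor.{u} q p → IsInfDiv.{u} q) ↔
      ∃ lam : ℝ≥0, ∀ t : ℝ≥0, p t = Real.exp (-((lam : ℝ) * t)) :=
  ⟨exp_of_all hp, fun ⟨_, h⟩ _ hq => infDiv_of_exp h hq⟩

end Pool.Agent.Lib.MP_0f714a_pr
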